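import Pool.Agent.Lib.lead.CXGraphRed
import Pool.Agent.Lib.helper4.CXPspM

/-! Recolouring: generic lemmas, joins with cliques, membership in PSPACE. -/

namespace Pool.Agent.H.MP_8006ab_lc

open Pool.Agent.Lib.CX Function Relation

def Step {V : Type} {G : SimpleGraph V} {k : ℕ} (f g : G.Coloring (Fin k)) : Prop :=
  ∃ v, f v ≠ g v ∧ ∀ u, u ≠ v → f u = g u

def Mixing (k : ℕ) {V : Type} (G : SimpleGraph V) : Prop := ∀ f g : G.Coloring (Fin k), ReflTransGen Step f g

section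
variable {X K : Type} (vs : List X) (es : List (X × X))

def Pr (f : X → K) : Prop := ∀ e ∈ es, f e.1 ≠ f e.2
def St (f g : X → K) : Prop := Pr es g ∧ ∃ v, ∀ u ∈ vs, u ≠ v → f u = g u
def R (f g : X → K) : Prop := ReflTransGen (St vs es) f g
def WF : Prop := ∀ e ∈ es, e.1 ∈ vs ∧ e.2 ∈ vs ∧ e.1 ≠ e.2

variable {vs es} [DecidableEq X] [Inhabited X]

theorem hybrid {f g : X → K} (hf : Pr es f) (hg : Pr es g) (h : ∀ e ∈ es, f e.1 ≠ g e.2 ∧ g e.1 ≠ f e.2) :
    R vs es f g := by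
  have : ∀ l : List X, R vs es f fun v => if v ∈ l then g v else f v := fun l => by
    induction l with
    | nil => exact .refl
    | cons x l ih =>
      refine ih.tail ⟨fun e he => ?_, x, fun u _ hu => by simp [hu]⟩
      have := hf e he
      have := hg e he
      have := h e he
      grind
  exact (this vs).tail ⟨hg, default, fun u hu _ => by simp [hu]⟩

theorem indep {f g : X → K} (hf : Pr es f) (hg : Pr es g) (h : ∀ e ∈ es, f e.1 = g e.1 ∨ f e.2 = g e.2) :
    R vs es f g := hybrid hf hg fun e he => by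
  have := hf e he
  have := hg e he
  have := h e he
  grind

omit [DecidableEq X] [Inhabited X] in
theorem R.symm {f g : X → K} (h : R vs es f g) (hf : Pr es f) : R vs es g f ∧ Pr es g := by
  induction h with
  | refl => exact ⟨.refl, hf⟩
  | tail _ h ih => exact ⟨.head ⟨ih.2, let ⟨v, e⟩ := h.2; ⟨v, fun u a b => (e u a b).symm⟩⟩ ih.1, h.1⟩

omit [DecidableEq X] [Inhabited X] in
theorem R.comp {f g : X → K} (h : R vs es f g) (π : Equiv.Perm K) : R vs es (π ∘ f) (π ∘ g) :=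
  h.lift (π ∘ ·) fun _ _ ⟨h1, v, h2⟩ => ⟨fun e he => by simpa using h1 e he, v, fun u a b => by simp [h2 u a b]⟩

theorem slide [Finite K] {γ : X → K} {c : K} (h : Pr es γ) (hw : WF vs es) (hc : ∀ x ∈ vs, γ x ≠ c)
    (π : Equiv.Perm K) : R vs es γ (π ∘ γ) := by
  classical
  have one : ∀ (π : Equiv.Perm K) x, R vs es (π ∘ γ) ((π * Equiv.swap c x : Equiv.Perm K) ∘ γ) := fun π x => by
    refine R.comp (g := Equiv.swap c x ∘ γ) (hybrid h (fun e he => by simpa using h e he) fun e he => ?_) π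
    have := h e he
    have := hc _ (hw e he).1
    have := hc _ (hw e he).2.1
    simp only [comp, Equiv.swap_apply_def]
    grind
  induction π using Equiv.Perm.swap_induction_on' with
  | one => exact .refl
  | mul_swap π x y e ih =>
    refine ih.trans ?_
    by_cases h1 : x = c
    · exact h1 ▸ one π y
    by_cases h2 : y = c
    · rw [Equiv.swap_comm, h2]
      exact one π x
    rw [← Equiv.swap_mul_swap_mul_swap (x := y) (y := c) (z := x) h2 e.symm, Equiv.swap_comm y c, ← mul_assoc,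
      ← mul_assoc]
    exact (one ..).trans ((one ..).trans (one ..))

theorem mixing_iff (k : ℕ) [NeZero k] (hw : WF vs es) :
    Mixing k (mkGr vs es).G ↔ ∀ f g : X → Fin k, Pr es f → Pr es g → R vs es f g := by
  let I := mkGrIso vs es
  have adj : ∀ u v, (mkGr vs es).G.Adj u v ↔ ((I u).1, (I v).1) ∈ es ∨ ((I v).1, (I u).1) ∈ es := fun u v => by
    rw [← I.map_rel_iff]
    simp only [SimpleGraph.comap_adj, Embedding.subtype_apply, SimpleGraph.fromRel_adj, and_iff_right_iff_imp]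
    rintro (h | h)
    exacts [(hw _ h).2.2, (hw _ h).2.2.symm]
  let res : (f : X → Fin k) → Pr es f → (mkGr vs es).G.Coloring (Fin k) := fun f hf =>
    .mk (fun i => f (I i).1) fun {u v} h => ((adj u v).1 h).elim (hf _) fun h => (hf _ h).symm
  let ext : (mkGr vs es).G.Coloring (Fin k) → X → Fin k := fun c x => if h : x ∈ vs then c (I.symm ⟨x, h⟩) else 0
  have e1 : ∀ c i, ext c (I i).1 = c i := fun c i => by simp [ext, show (I i).1 ∈ vs from (I i).2]
  have e2 : ∀ c, Pr es (ext c) := fun c e he => by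
    simp only [ext, dif_pos (hw e he).1, dif_pos (hw e he).2.1]
    exact c.valid ((adj ..).2 (.inl (by simpa)))
  have e3 : ∀ f hf i, res f hf i = f (I i).1 := fun _ _ _ => rfl
  constructor
  · intro h f g hf hg
    have l : R vs es (ext (res f hf)) (ext (res g hg)) := (h _ _).lift ext fun c d ⟨v, _, q⟩ =>
      ⟨e2 d, (I v).1, fun u hu n => by
        simp only [ext, dif_pos hu]
        exact q _ fun e => n (by simp [← e])⟩
    exact (l.head ⟨e2 _, default, fun u hu _ => by simp [ext, e3, hu]⟩).tail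
      ⟨hg, default, fun u hu _ => by simp [ext, e3, hu]⟩
  · intro h c d
    have : ∀ g, R vs es (ext c) g → ∀ hg : Pr es g, ReflTransGen Step c (res g hg) := fun g r => by
      induction r with
      | refl => exact fun hg => by rw [show res _ hg = c from DFunLike.ext _ _ (e1 c)]
      | @tail g g' r s ih =>
        intro hg
        have hg0 := (R.symm r (e2 c)).2
        by_cases q : res g hg0 = res g' hg
        · exact q ▸ ih hg0
        obtain ⟨i, hi⟩ : ∃ i, g (I i).1 ≠ g' (I i).1 := by_contra fun n => q (DFunLike.ext _ _ (by simpa [e3] using n))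
        obtain ⟨v, hv⟩ := s.2
        refine (ih hg0).tail ⟨i, hi, fun u hu => hv _ (I u).2 fun e => hu ?_⟩
        exact I.injective (Subtype.ext (e.trans (by_contra fun n => hi (hv _ (I i).2 (Ne.symm n)))))
    rw [← show res _ (e2 d) = d from DFunLike.ext _ _ (e1 d)]
    exact this _ (h _ _ (e2 c) (e2 d)) (e2 d)

def jv (k : ℕ) (vs : List X) : List (ℕ × X) := vs.map (0, ·) ++ (List.range (k - 4)).map fun j => (j + 1, default)
def je (k : ℕ) (vs : List X) (es : List (X × X)) : List ((ℕ × X) × (ℕ × X)) :=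
  es.map (fun e => ((0, e.1), (0, e.2))) ++ (List.range (k - 4) ×ˢ vs).map (fun p => ((p.1 + 1, default), (0, p.2))) ++
    ((List.range (k - 4) ×ˢ List.range (k - 4)).filter fun p => decide (p.1 < p.2)).map
      fun p => ((p.1 + 1, default), (p.2 + 1, default))

def L (k : ℕ) [NeZero k] (f : X → Fin 4) (x : ℕ × X) : Fin k := Fin.ofNat k (if x.1 = 0 then (f x.2).1 else x.1 + 3)

omit [DecidableEq X] in
theorem mem_jv (k i : ℕ) (x : X) : (i, x) ∈ jv k vs ↔ i = 0 ∧ x ∈ vs ∨ 0 < i ∧ i + 3 < k ∧ x = default := by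
  simp only [jv, List.mem_append, List.mem_map, List.mem_range, Prod.mk.injEq]
  exact or_congr (by grind) ⟨by grind, fun h => ⟨i - 1, by grind⟩⟩

omit [DecidableEq X] in
theorem je_iff (k : ℕ) (P : (ℕ × X) × (ℕ × X) → Prop) : (∀ e ∈ je k vs es, P e) ↔ (∀ e ∈ es, P ((0, e.1), (0, e.2))) ∧
    (∀ i, i + 4 < k → ∀ x ∈ vs, P ((i + 1, default), (0, x))) ∧
    ∀ i j, i < j → j + 4 < k → P ((i + 1, default), (j + 1, default)) := by
  simp only [je, List.forall_mem_append, List.forall_mem_map, List.mem_filter, Prod.forall, List.mem_product,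
    List.mem_range, decide_eq_true_eq, and_assoc]
  grind

omit [DecidableEq X] in
theorem pr_je (k : ℕ) {F : ℕ × X → K} (h : Pr (je k vs es) F) : (∀ e ∈ es, F (0, e.1) ≠ F (0, e.2)) ∧
    (∀ i, i + 4 < k → ∀ x ∈ vs, F (i + 1, default) ≠ F (0, x)) ∧
    ∀ i j, i < j → j + 4 < k → F (i + 1, default) ≠ F (j + 1, default) := (je_iff ..).1 h

omit [DecidableEq X] in
theorem wf_j (k : ℕ) (hw : WF vs es) : WF (jv k vs) (je k vs es) := by
  rw [WF, je_iff]
  simp only [mem_jv]
  exact ⟨fun e he => by simpa using hw e he, by grind, by grind⟩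

omit [DecidableEq X] in
theorem pr_L {k : ℕ} [NeZero k] (hk : 4 ≤ k) {f : X → Fin 4} (h : Pr es f) : Pr (je k vs es) (L k f) := by
  rw [Pr, je_iff]
  simp only [L, ne_eq, Fin.ext_iff, Fin.val_ofNat, if_true, Nat.add_eq_zero_iff, one_ne_zero, and_false, if_false]
  have m : ∀ x, (f x).1 % k = f x := fun x => Nat.mod_eq_of_lt (by omega)
  refine ⟨fun e he => by simpa [m, Fin.ext_iff] using h e he, fun i hi x _ => ?_, fun i j h1 h2 => ?_⟩
  · rw [m, Nat.mod_eq_of_lt (by omega)]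
    omega
  · rw [Nat.mod_eq_of_lt (by omega), Nat.mod_eq_of_lt (by omega)]
    omega

theorem join_yes {k : ℕ} [NeZero k] (hk : 4 ≤ k) (hw : WF vs es) (p : ℕ → X)
    (hp : (p 1, p 2) ∈ es ∧ (p 1, p 3) ∈ es ∧ (p 2, p 3) ∈ es) {γ : X → Fin 4} (h1 : Pr es γ) (h2 : ∀ x ∈ vs, γ x ≠ 0)
    (h : ∀ f, Pr es f → f (p 1) = 1 → f (p 2) = 2 → f (p 3) = 3 → R vs es f γ) (F G : ℕ × X → Fin k)
    (hF : Pr (je k vs es) F) (hG : Pr (je k vs es) G) : R (jv k vs) (je k vs es) F G := by
  suffices ∀ F : ℕ × X → Fin k, Pr (je k vs es) F → R (jv k vs) (je k vs es) F (L k γ) from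
    (this F hF).trans ((this G hG).symm hG).1
  intro F hF
  let pv : ℕ → ℕ × X := fun i => if i < 4 then (0, p i) else (i - 3, default)
  have hv : ∀ i, 0 < i → i < 4 → p i ∈ vs := fun i h1 h2 => by
    have := hw _ hp.1
    have := hw _ hp.2.1
    interval_cases i <;> simp_all
  obtain ⟨π, hπ⟩ := Equiv.Perm.exists_extending_pair (fun i : {i : Fin k // i.1 ≠ 0} => i.1) (fun i => F (pv i.1))
    Subtype.val_injective fun i j e => by
      obtain ⟨a, b, c⟩ := pr_je k hF
      wlog l : i.1.1 ≤ j.1.1 generalizing i j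
      · exact (this j i e.symm (by omega)).symm
      obtain ⟨⟨i, hi⟩, hi'⟩ := i
      obtain ⟨⟨j, hj⟩, hj'⟩ := j
      have l' : i ≤ j := l
      have hi'' : i ≠ 0 := hi'
      simp only [pv, Subtype.mk.injEq, Fin.mk.injEq] at *
      by_contra n
      split_ifs at e with q1 q2 q2
      · have := a _ hp.1
        have := a _ hp.2.1
        have := a _ hp.2.2
        interval_cases j <;> interval_cases i <;> simp_all
      · exact b (j - 4) (by omega) _ (hv i (by omega) q1) (by rw [show j - 4 + 1 = j - 3 by omega, e])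
      · omega
      · exact c (i - 4) (j - 4) (by omega) (by omega)
          (by rw [show j - 4 + 1 = j - 3 by omega, show i - 4 + 1 = i - 3 by omega, e])
  have pF : Pr (je k vs es) (π.symm ∘ F) := fun e he => by simpa using hF e he
  have n : ∀ i, 0 < i → i < k → (π.symm (F (pv i))).1 = i := fun i h1 h2 => by
    rw [← hπ ⟨⟨i, h2⟩, h1.ne'⟩, Equiv.symm_apply_apply]
  have lt : ∀ x ∈ vs, (π.symm (F (0, x))).1 < 4 := fun x hx => by_contra fun q => by
    have := (π.symm (F (0, x))).2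
    refine (pr_je k pF).2.1 ((π.symm (F (0, x))).1 - 4) (by omega) x hx (Fin.ext ?_)
    have e := n (π.symm (F (0, x))).1 (by omega) this
    simp only [pv, if_neg q] at e
    rwa [show (π.symm (F (0, x))).1 - 4 + 1 = (π.symm (F (0, x))).1 - 3 by omega]
  let f : X → Fin 4 := fun x => Fin.ofNat 4 (π.symm (F (0, x)))
  have e : ∀ x ∈ vs, (f x).1 = π.symm (F (0, x)) := fun x hx => Nat.mod_eq_of_lt (lt x hx)
  have pf : Pr es f := fun a ha q => (pr_je k pF).1 a ha
    (Fin.ext (by rw [comp_apply, comp_apply, ← e _ (hw a ha).1, ← e _ (hw a ha).2.1, q]))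
  have r : R (jv k vs) (je k vs es) (L k f) (L k γ) := (h f pf
    (Fin.ext ((e _ (hv 1 (by omega) (by omega))).trans (n 1 (by omega) (by omega))))
    (Fin.ext ((e _ (hv 2 (by omega) (by omega))).trans (n 2 (by omega) (by omega))))
    (Fin.ext ((e _ (hv 3 (by omega) (by omega))).trans (n 3 (by omega) (by omega))))).lift (L k)
      fun a b ⟨q, v, s⟩ => ⟨pr_L hk q, (0, v), fun ⟨i, x⟩ hx n => by
        obtain ⟨rfl, hy⟩ | ⟨q1, -⟩ := (mem_jv ..).1 hx
        · simp [L, s x hy (by simpa using n)]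
        · simp [L, q1.ne']⟩
  have r' : R (jv k vs) (je k vs es) (π.symm ∘ F) (L k γ) := r.head ⟨pr_L hk pf, default, fun ⟨i, x⟩ hx _ => by
    obtain ⟨rfl, hy⟩ | ⟨q1, q2, rfl⟩ := (mem_jv ..).1 hx
    · simp [L, e x hy]
    · have := n (i + 3) (by omega) q2
      simp only [pv, if_neg (show ¬ i + 3 < 4 by omega), Nat.add_sub_cancel] at this
      exact Fin.ext (by simp [L, this, q1.ne', Nat.mod_eq_of_lt q2])⟩
  have := r'.comp π
  rw [← Function.comp_assoc, Equiv.self_comp_symm, id_comp] at this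
  refine this.trans ((slide (c := 0) (pr_L hk h1) (wf_j k hw) (fun ⟨i, x⟩ hx => ?_) π).symm (pr_L hk h1)).1
  obtain ⟨rfl, hy⟩ | ⟨q1, q2, -⟩ := (mem_jv ..).1 hx
  · exact fun q => h2 x hy (Fin.ext ((Nat.mod_eq_of_lt ((γ x).2.trans_le hk)).symm.trans (congrArg Fin.val q)))
  · simp [L, Fin.ext_iff, q1.ne', Nat.mod_eq_of_lt q2]

theorem join_no {k : ℕ} [NeZero k] (hk : 4 ≤ k) (hw : WF vs es) (p : Fin 4 → X) (hp : ∀ i, p i ∈ vs)
    {γ : X → Fin 4} (h1 : Pr es γ) (h2 : γ (p 0) ≠ 0) (J : (X → Fin 4) → Prop) {f : X → Fin 4} (h3 : Pr es f) (h4 : J f)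
    (h5 : ∀ f g, J f → Pr es f → St vs es f g → J g) (h6 : ∀ f, J f → ∀ i, f (p i) = i) :
    ¬ R (jv k vs) (je k vs es) (L k f) (L k γ) := fun r => by
  have m : ∀ x : Fin 4, x.1 % k = x := fun x => Nat.mod_eq_of_lt (by omega)
  suffices ∀ G, R (jv k vs) (je k vs es) (L k f) G → ∃ f, J f ∧ Pr es f ∧ ∀ x ∈ jv k vs, G x = L k f x by
    obtain ⟨g, q, -, e⟩ := this _ r
    have := e (0, p 0) (by simp [mem_jv, hp])
    simp only [L, if_true, Fin.ext_iff, Fin.val_ofNat, m, h6 g q] at this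
    exact h2 (Fin.ext this)
  intro G r
  induction r with
  | refl => exact ⟨f, h4, h3, fun _ _ => rfl⟩
  | @tail G G' _ s ih =>
    obtain ⟨g, q1, q2, q3⟩ := ih
    obtain ⟨s, ⟨i, v⟩, e⟩ := s
    obtain ⟨a, b, c⟩ := pr_je k s
    have cl : ∀ j, j + 4 < k → j + 1 ≠ i → (G' (j + 1, default)).1 = j + 4 := fun j h1 h2 => by
      rw [← e _ (by simp [mem_jv, h1]) (by simp [h2]), q3 _ (by simp [mem_jv, h1])]
      simp [L, Nat.mod_eq_of_lt h1]
    by_cases z : i = 0
    · subst z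
      have lt : ∀ x ∈ vs, (G' (0, x)).1 < 4 := fun x hx => by_contra fun q => by
        have := (G' (0, x)).2
        exact b ((G' (0, x)).1 - 4) (by omega) x hx (Fin.ext (by rw [cl _ (by omega) (by omega)]; omega))
      let g' : X → Fin 4 := fun x => Fin.ofNat 4 (G' (0, x))
      have e' : ∀ x ∈ vs, (g' x).1 = G' (0, x) := fun x hx => Nat.mod_eq_of_lt (lt x hx)
      have pg : Pr es g' := fun a' ha q => a a' ha (Fin.ext (by rw [← e' _ (hw a' ha).1, ← e' _ (hw a' ha).2.1, q]))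
      refine ⟨g', h5 g g' q1 q2 ⟨pg, v, fun u hu n => Fin.ext ?_⟩, pg, fun ⟨j, x⟩ hx => ?_⟩
      · rw [e' u hu, ← e _ (by simp [mem_jv, hu]) (by simp [n]), q3 _ (by simp [mem_jv, hu])]
        simp [L, m]
      · obtain ⟨rfl, hy⟩ | ⟨q1, q2, rfl⟩ := (mem_jv ..).1 hx
        · simp [L, e' x hy]
        · obtain ⟨j, rfl⟩ : ∃ j', j = j' + 1 := ⟨j - 1, by omega⟩
          exact Fin.ext (by simp [L, cl j q2, Nat.mod_eq_of_lt q2])
    · refine ⟨g, q1, q2, fun x hx => by_cases (fun q : x = (i, v) => ?_) fun q => (e x hx q).symm.trans (q3 x hx)⟩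
      subst q
      obtain ⟨-, h7, rfl⟩ := ((mem_jv ..).1 hx).resolve_left (by simp [z])
      obtain ⟨i, rfl⟩ : ∃ j', i = j' + 1 := ⟨i - 1, by omega⟩
      refine Fin.ext ?_
      simp only [L, Nat.add_eq_zero_iff, one_ne_zero, and_false, if_false, Fin.val_ofNat, Nat.mod_eq_of_lt h7]
      by_contra n
      have := (G' (i + 1, default)).2
      by_cases l : (G' (i + 1, default)).1 < 4
      · refine b i h7 _ (hp ⟨_, l⟩) (Fin.ext ?_)
        rw [← e (0, _) (by simp [mem_jv, hp]) (by simp), q3 _ (by simp [mem_jv, hp])]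
        simp [L, h6 g q1]
      · have := cl ((G' (i + 1, default)).1 - 4) (by omega) (by omega)
        rcases lt_or_gt_of_ne (show (G' (i + 1, default)).1 - 4 ≠ i by omega) with q | q
        · exact c _ _ q h7 (Fin.ext (by rw [this]; omega))
        · exact c _ _ q (by omega) (Fin.ext (by rw [this]; omega))

end

def dg (k n c i : ℕ) : ℕ := c / k ^ min i n % k
def PN (k : ℕ) (a : Gr) (c : ℕ) : Prop := ∀ u < a.n, ∀ v < a.n, a.adjB u v = true → dg k a.n c u ≠ dg k a.n c v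
instance (k a c) : Decidable (PN k a c) := by unfold PN; infer_instance
def ME (k : ℕ) (a : Gr) (s t : ℕ × ℕ) : Prop := t.1 ≤ k ^ a.n ∧ t.2 < k ^ a.n ∧
  (s.1 = 0 ∧ t.1 = 0 ∨ t.1 = s.1 + 1 ∧ t.2 = s.2 ∧ (PN k a s.1 → s.2 = s.1) ∨
    t.1 = s.1 ∧ PN k a t.2 ∧ ∃ i < a.n, dg k a.n s.2 i ≠ dg k a.n t.2 i ∧ ∀ j < a.n, j ≠ i → dg k a.n s.2 j = dg k a.n t.2 j)
instance (k a s t) : Decidable (ME k a s t) := by unfold ME; infer_instance

theorem psp (k : ℕ) [NeZero k] : InPSPACE fun a : Gr => Mixing k a.G := by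
  have kp : ∀ n, 0 < k ^ n := fun n => Nat.pow_pos (NeZero.pos k)
  refine (InPSPACE.of_reach (ME k) (fun a t => t.1 = k ^ a.n) (fun _ => (0, 0)) (fun a => 6 * (k * a.n) + 11)
    (by simp only [ME, PN, dg]; fun_prop) (by fun_prop) (by fun_prop) (by fun_prop) fun a t h => ?_).of_iff fun a => ?_
  · have : t.1 ≤ k ^ a.n ∧ t.2 ≤ k ^ a.n := by
      rcases h.cases_tail with rfl | ⟨_, -, h⟩
      exacts [by simp, ⟨h.1, h.2.1.le⟩]
    have l : k ^ a.n < 2 ^ (k * a.n + 1) := by
      rw [pow_succ, pow_mul]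
      have := Nat.pow_le_pow_left (Nat.lt_two_pow_self (n := k)).le a.n
      have := kp a.n
      omega
    have h1 := size_nat_of_lt (this.1.trans_lt l)
    have h2 := size_nat_of_lt (this.2.trans_lt l)
    rw [size_pair]
    omega
  let dec : (c : ℕ) → PN k a c → a.G.Coloring (Fin k) := fun c h =>
    .mk (fun i => ⟨dg k a.n c i, Nat.mod_lt _ (NeZero.pos k)⟩) fun {u v} e q =>
      h u u.2 v v.2 ((a.adjB_iff u v).2 e) (congrArg Fin.val q)
  have d1 : ∀ c h i, (dec c h i).1 = dg k a.n c i := fun _ _ _ => rfl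
  have enc : ∀ f : a.G.Coloring (Fin k), ∃ c < k ^ a.n, ∃ h, dec c h = f := fun f => by
    have e : ∀ i : Fin a.n, dg k a.n (finFunctionFinEquiv f) i = f i := fun i => by
      conv_rhs => rw [← finFunctionFinEquiv.symm_apply_apply f]
      rw [dg, min_eq_left i.2.le]
      rfl
    exact ⟨finFunctionFinEquiv f, Fin.is_lt _, fun u hu v hv q => by
      rw [e ⟨u, hu⟩, e ⟨v, hv⟩]
      exact Fin.val_ne_of_ne (f.valid ((a.adjB_iff ⟨u, hu⟩ ⟨v, hv⟩).1 q)), DFunLike.ext _ _ fun i => Fin.ext (e i)⟩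
  have inj : ∀ c < k ^ a.n, ∀ c' < k ^ a.n, ∀ h h', dec c h = dec c' h' → c = c' := fun c hc c' hc' h h' e =>
    congrArg Fin.val (finFunctionFinEquiv.symm.injective (a₁ := ⟨c, hc⟩) (a₂ := ⟨c', hc'⟩)
      (funext fun i => Fin.ext (by simpa [d1, dg] using congrArg (fun f => (f i).1) e)))
  constructor
  · intro h
    have mv : ∀ b ≤ k ^ a.n, ∀ f g, ReflTransGen Step f g → ∀ c < k ^ a.n, ∀ hc, dec c hc = f → ∀ c' < k ^ a.n,
        ∀ hc', dec c' hc' = g → ReflTransGen (ME k a) (b, c) (b, c') := fun b hb f g r c l hc e => by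
      induction r with
      | refl => exact fun c' l' hc' e' => by rw [inj c l c' l' hc hc' (e.trans e'.symm)]
      | @tail g g' _ s ih =>
        rintro c' l' hc' rfl
        obtain ⟨c1, l1, h1, rfl⟩ := enc g
        obtain ⟨v, q1, q2⟩ := s
        exact (ih c1 l1 h1 rfl).tail ⟨hb, l', .inr (.inr ⟨rfl, hc', v, v.2, Fin.val_ne_of_ne q1, fun j hj n =>
          congrArg Fin.val (q2 ⟨j, hj⟩ fun e => n (congrArg Fin.val e))⟩)⟩
    obtain ⟨c, l, hc⟩ : ∃ c < k ^ a.n, ∀ b < k ^ a.n, PN k a b → PN k a c := by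
      by_contra! n
      obtain ⟨b, h1, h2, -⟩ := n 0 (kp _)
      obtain ⟨-, -, -, h3⟩ := n b h1
      exact h3 h2
    have : ∀ b ≤ k ^ a.n, ReflTransGen (ME k a) (0, 0) (b, c) := fun b hb => by
      induction b with
      | zero => exact .single ⟨hb, l, .inl ⟨rfl, rfl⟩⟩
      | succ b ih =>
        refine (ih (by omega)).trans ?_
        by_cases q : PN k a b
        · exact ((mv b (by omega) _ _ (h _ _) c l (hc b hb q) rfl b hb q rfl).tail (c := (b + 1, b))
            ⟨hb, hb, .inr (.inl ⟨rfl, rfl, fun _ => rfl⟩)⟩).trans (mv _ hb _ _ (h _ _) b hb q rfl c l (hc b hb q) rfl)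
        · exact .single ⟨hb, l, .inr (.inl ⟨rfl, rfl, fun r => absurd r q⟩)⟩
    exact ⟨_, this _ le_rfl, rfl⟩
  · rintro ⟨t, r, e⟩ f g
    have : ∀ b < t.1, ∀ h, ∃ h', ReflTransGen Step (dec b h) (dec t.2 h') := by
      clear e
      induction r with
      | refl => simp
      | @tail s t _ q ih =>
        intro b hb h
        obtain ⟨-, q⟩ | ⟨q1, q2, q3⟩ | ⟨q1, q2, i, hi, q3, q4⟩ := q.2.2
        · omega
        · rw [q2]
          by_cases z : b = s.1
          · subst z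
            rw [q3 h]
            exact ⟨h, .refl⟩
          · exact ih b (by omega) h
        · obtain ⟨h', r⟩ := ih b (by omega) h
          exact ⟨q2, r.tail ⟨⟨i, hi⟩, Fin.ne_of_val_ne q3, fun u hu => Fin.ext (q4 u u.2 (Fin.val_ne_of_ne hu))⟩⟩
    obtain ⟨c, l, h, rfl⟩ := enc f
    obtain ⟨c', l', h', rfl⟩ := enc g
    obtain ⟨_, r1⟩ := this c (e ▸ l) h
    obtain ⟨_, r2⟩ := this c' (e ▸ l') h'
    exact r1.trans (r2.swap.lift id fun f g ⟨v, h1, h2⟩ => ⟨v, h1.symm, fun u hu => (h2 u hu).symm⟩)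

end Pool.Agent.H.MP_8006ab_lc
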