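import Pool.Agent.H.MP_8006ab_lc.A

/-! The five-cycle gadget. -/

namespace Pool.Agent.H.MP_8006ab_lc

open Function

abbrev Ev := Fin 5 → Fin 4 × Fin 4
abbrev Lc := Fin 5 → Fin 4

def LP (e : Ev) (h : Lc) : Prop := ∀ p, h p ≠ (e p).1 ∧ h p ≠ (e p).2 ∧ h p ≠ h (p + 1)
instance (e h) : Decidable (LP e h) := by unfold LP; infer_instance

def att (e : Ev) (h : Lc) (m : Fin 5 × Fin 4) : Lc :=
  if m.2 ≠ (e m.1).1 ∧ m.2 ≠ (e m.1).2 ∧ m.2 ≠ h (m.1 + 1) ∧ m.2 ≠ h (m.1 + 4) then update h m.1 m.2 else h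

theorem LP.att {e : Ev} {h : Lc} (l : LP e h) (m) : LP e (att e h m) := by
  unfold MP_8006ab_lc.att
  split_ifs with q
  · intro p
    have := l p
    have a := (by decide : ∀ p : Fin 5, p + 1 ≠ p) p
    have b := (by decide : ∀ p r : Fin 5, p + 1 = r → p = r + 4) p m.1
    grind
  · exact l

def E (a z w z' : Fin 4) (b : Bool) (y x y' : Fin 4) : Ev :=
  ![(a, y), (w, z), (x, if b then z' else a), (w, z), (if b then y' else a, z')]

def can : Lc := ![3, 1, 2, 1, 2]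
def pR : List (Fin 5 × Fin 4) := [(3, 3), (2, 2), (1, 1), (0, 3), (4, 2), (0, 0), (4, 3), (1, 3), (2, 2), (1, 2), (2, 3)]
def pC : List (Fin 5 × Fin 4) := [(3, 1), (1, 1), (2, 2), (0, 0), (0, 3), (4, 2), (0, 3)]
def p1 : List (Fin 5 × Fin 4) := [(0, 0), (1, 2), (2, 3), (1, 3), (2, 2), (4, 2), (4, 3)]
def p2 : List (Fin 5 × Fin 4) := [(2, 1), (2, 0), (1, 2), (3, 3), (0, 3), (1, 3), (0, 2), (4, 2), (3, 2), (4, 3)]
def p3 : List (Fin 5 × Fin 4) := [(4, 1), (3, 2), (0, 2), (0, 3), (2, 3), (3, 3), (2, 2)]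

theorem vec (h : Lc) : h = ![h 0, h 1, h 2, h 3, h 4] := by
  funext i
  fin_cases i <;> rfl

def Md (z w z' : Fin 4) : Prop := (z, w) ∈ [(0, 0), (0, 2), (2, 2)] ∧ z' ∈ [0, 3]

set_option synthInstance.maxSize 4000
set_option maxRecDepth 100000

theorem locR {z w z' x y' : Fin 4} (m : Md z w z') (hx : x ∈ [0, 1]) (hy : y' ∈ [0, 1]) {h : Lc}
    (l : LP (E 1 z w z' true 1 x y') h) :
    pR.foldl (att (E 1 z w z' true 1 x y')) h 2 ≠ 1 ∧ pR.foldl (att (E 1 z w z' true 1 x y')) h 4 ≠ 1 := by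
  rw [vec h] at l ⊢
  exact (by decide +kernel : ∀ m ∈ [(0, 0), (0, 2), (2, 2)], ∀ z' ∈ [0, 3], ∀ x ∈ [0, 1], ∀ y' ∈ [0, 1], ∀ a b c d e,
    LP (E 1 m.1 m.2 z' true 1 x y') ![a, b, c, d, e] →
      pR.foldl (att (E 1 m.1 m.2 z' true 1 x y')) ![a, b, c, d, e] 2 ≠ 1 ∧
      pR.foldl (att (E 1 m.1 m.2 z' true 1 x y')) ![a, b, c, d, e] 4 ≠ 1) _ m.1 _ m.2 _ hx _ hy _ _ _ _ _ l

theorem locC {z w z' : Fin 4} (m : Md z w z') {t : Bool} {h : Lc} (l : LP (E 1 z w z' t 1 1 1) h) :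
    pC.foldl (att (E 1 z w z' t 1 1 1)) h = can := by
  rw [vec h] at l ⊢
  exact funext ((by decide +kernel : ∀ m ∈ [(0, 0), (0, 2), (2, 2)], ∀ z' ∈ [0, 3], ∀ t a b c d e,
    LP (E 1 m.1 m.2 z' t 1 1 1) ![a, b, c, d, e] →
      ∀ p, pC.foldl (att (E 1 m.1 m.2 z' t 1 1 1)) ![a, b, c, d, e] p = can p) _ m.1 _ m.2 _ _ _ _ _ _ l)

def cl (b : Bool) : Fin 4 := if b then 0 else 1
def EA (t y x y' : Bool) : Ev := E 1 0 1 0 t (cl y) (cl x) (cl y')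

theorem locA (t y x y' u v v' : Bool) {h : Lc} (l : LP (EA t y x y') h) :
    (y = false → u = false → LP (EA t u v v') (p1.foldl (att (EA t y x y')) h)) ∧
    (x = t → v = t → LP (EA t u v v') (p2.foldl (att (EA t y x y')) h)) ∧
    (t = true → y' = true → v' = true → LP (EA t u v v') (p3.foldl (att (EA t y x y')) h)) := by
  rw [vec h] at l ⊢
  exact (by decide +kernel : ∀ t y x y' a b c d e, LP (EA t y x y') ![a, b, c, d, e] → ∀ u v v',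
    (y = false → u = false → LP (EA t u v v') (p1.foldl (att (EA t y x y')) ![a, b, c, d, e])) ∧
    (x = t → v = t → LP (EA t u v v') (p2.foldl (att (EA t y x y')) ![a, b, c, d, e])) ∧
    (t = true → y' = true → v' = true → LP (EA t u v v') (p3.foldl (att (EA t y x y')) ![a, b, c, d, e])))
      _ _ _ _ _ _ _ _ _ l _ _ _

theorem locS (t y x y' : Bool) : (∃ h, LP (EA t y x y') h) ↔ y = false ∨ x = t ∨ t = true ∧ y' = true := by
  rw [← (by decide +kernel : ∀ t y x y', (∃ a b c d e, LP (EA t y x y') ![a, b, c, d, e]) ↔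
    y = false ∨ x = t ∨ t = true ∧ y' = true)]
  exact ⟨fun ⟨h, l⟩ => ⟨_, _, _, _, _, vec h ▸ l⟩, fun ⟨_, _, _, _, _, l⟩ => ⟨_, l⟩⟩

end Pool.Agent.H.MP_8006ab_lc
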