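import Pool.Agent.H.MP_8006ab_lc.B

/-! A graph whose four-colourings simulate single flips between solutions of a formula. -/

namespace Pool.Agent.H.MP_8006ab_lc

open Function Relation

abbrev Gd (Y : Type) := Bool × Y × Y × Y
abbrev X (Y : Type) := ℕ × Gd Y

variable {Y : Type} [DecidableEq Y] [Inhabited Y] (gs : List (Gd Y)) (T A : Y)

def sp (i : ℕ) : X Y := (i, default)
def vr (y : Y) : X Y := (12, false, y, y, y)
def vars : List Y := T :: A :: gs.flatMap fun t => [t.2.1, t.2.2.1, t.2.2.2]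
def core : List (ℕ × ℕ) := [(1, 2), (1, 3), (2, 3), (4, 1), (4, 5), (4, 9), (4, 6), (4, 7), (4, 11), (5, 1), (5, 3), (6, 8),
  (6, 3), (7, 8), (7, 3), (8, 1), (8, 2), (8, 11), (9, 6), (9, 5), (9, 2), (9, 10), (10, 1), (10, 2)]
def ge (t : Gd Y) : List (X Y × X Y) := [((13, t), sp 1), ((13, t), vr t.2.1), ((13, t), 14, t),
  ((14, t), sp 6), ((14, t), sp 5), ((14, t), 15, t), ((15, t), vr t.2.2.1), ((15, t), if t.1 = true then sp 10 else sp 1),
  ((15, t), 16, t), ((16, t), sp 6), ((16, t), sp 5), ((16, t), 17, t),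
  ((17, t), if t.1 = true then vr t.2.2.2 else sp 1), ((17, t), sp 10), ((17, t), 13, t)]
def gv : List (X Y) :=
  (List.range 12).map sp ++ (vars gs T A).map vr ++ gs.flatMap fun t => [(13, t), (14, t), (15, t), (16, t), (17, t)]
def gE : List (X Y × X Y) := core.map (fun e => (sp e.1, sp e.2)) ++ [(sp 7, vr T), (sp 11, vr A)] ++
  (vars gs T A).flatMap (fun y => [(vr y, sp 2), (vr y, sp 3)]) ++ gs.flatMap ge

def ix (n : ℕ) : Fin 5 := Fin.ofNat 5 (n - 13)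
theorem ixs : ix 13 = 0 ∧ ix 14 = 1 ∧ ix 15 = 2 ∧ ix 16 = 3 ∧ ix 17 = 4 := by decide
def mk (s : ℕ → Fin 4) (σ : Y → Fin 4) (h : Gd Y → Lc) (x : X Y) : Fin 4 :=
  if x.1 < 12 then s x.1 else if x.1 = 12 then σ x.2.2.1 else h x.2 (ix x.1)
def env (s : ℕ → Fin 4) (σ : Y → Fin 4) (t : Gd Y) : Ev :=
  E (s 1) (s 5) (s 6) (s 10) t.1 (σ t.2.1) (σ t.2.2.1) (σ t.2.2.2)
def PS (s : ℕ → Fin 4) (σ : Y → Fin 4) (h : Gd Y → Lc) : Prop := (∀ e ∈ core, s e.1 ≠ s e.2) ∧ s 7 ≠ σ T ∧ s 11 ≠ σ A ∧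
  (∀ y ∈ vars gs T A, σ y ≠ s 2 ∧ σ y ≠ s 3) ∧ ∀ t ∈ gs, LP (env s σ t) (h t)
def γs (i : ℕ) : Fin 4 := [1, 1, 2, 3, 3, 2, 2, 2, 3, 1, 3, 2].getD i 1
def γ : X Y → Fin 4 := mk γs (fun _ => 1) fun _ => can

def Sol (α : Y → Bool) : Prop :=
  α T = true ∧ ∀ t ∈ gs, α t.2.1 = false ∨ α t.2.2.1 = t.1 ∨ t.1 = true ∧ α t.2.2.2 = true
def Fl (α β : Y → Bool) : Prop := Sol gs T β ∧ ∃ y, ∀ z, z ≠ y → α z = β z

variable {gs T A}

omit [DecidableEq Y] in
theorem gE_iff (P : X Y × X Y → Prop) : (∀ e ∈ gE gs T A, P e) ↔ (∀ e ∈ core, P (sp e.1, sp e.2)) ∧ P (sp 7, vr T) ∧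
    P (sp 11, vr A) ∧ (∀ y ∈ vars gs T A, P (vr y, sp 2) ∧ P (vr y, sp 3)) ∧ ∀ t ∈ gs, ∀ e ∈ ge t, P e := by
  simp only [gE, List.forall_mem_append, List.forall_mem_map, List.forall_mem_flatMap, List.forall_mem_cons, and_assoc,
    List.not_mem_nil, false_imp_iff, implies_true, and_true, true_and]

omit [DecidableEq Y] [Inhabited Y] in
theorem mem_vars {t : Gd Y} (h : t ∈ gs) : t.2.1 ∈ vars gs T A ∧ t.2.2.1 ∈ vars gs T A ∧ t.2.2.2 ∈ vars gs T A := by
  simp only [vars, List.mem_cons, List.mem_flatMap]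
  exact ⟨.inr (.inr ⟨t, h, by simp⟩), .inr (.inr ⟨t, h, by simp⟩), .inr (.inr ⟨t, h, by simp⟩)⟩

omit [DecidableEq Y] in
theorem wf : WF (gv gs T A) (gE gs T A) := by
  have a : ∀ i < 12, sp i ∈ gv gs T A := fun i hi => by simp [gv, sp, hi]
  have b : ∀ y ∈ vars gs T A, vr y ∈ gv gs T A := fun y hy => by
    simp only [gv, List.mem_append]
    exact .inl (.inr (List.mem_map_of_mem hy))
  rw [WF, gE_iff]
  refine ⟨by simp [core, a]; simp [sp], by simp [a, b, vars]; simp [sp, vr], by simp [a, b, vars]; simp [sp, vr],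
    fun y hy => by simp [a, b, hy]; simp [sp, vr], fun t ht => ?_⟩
  have c : ∀ i, 13 ≤ i → i < 18 → (i, t) ∈ gv gs T A := fun i h1 h2 => by
    simp only [gv, List.mem_append, List.mem_flatMap]
    exact .inr ⟨t, ht, by simp; omega⟩
  have := mem_vars (T := T) (A := A) ht
  cases q : t.1 <;> simp [ge, a, b, c, this, q] <;> simp [sp, vr]

omit [DecidableEq Y] in
theorem pr_iff (s σ h) : Pr (gE gs T A) (mk s σ h) ↔ PS gs T A s σ h := by
  rw [Pr, gE_iff, PS]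
  refine and_congr (by simp [core, mk, sp]) (and_congr Iff.rfl (and_congr Iff.rfl (and_congr Iff.rfl
    (forall₂_congr fun t _ => ?_))))
  cases q : t.1 <;> simp [ge, LP, Fin.forall_fin_succ, env, E, mk, sp, vr, q, and_assoc, ixs]

abbrev RR (gs : List (Gd Y)) (T A : Y) := R (K := Fin 4) (gv gs T A) (gE gs T A)

theorem Rs {s σ h} (i c) (p : PS gs T A s σ h) (p' : PS gs T A (update s i c) σ h) :
    RR gs T A (mk s σ h) (mk (update s i c) σ h) := by
  refine indep ((pr_iff ..).2 p) ((pr_iff ..).2 p') ((gE_iff _).2 ⟨fun e he => ?_, .inr rfl, .inr rfl,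
    fun _ _ => ⟨.inl rfl, .inl rfl⟩, fun t _ => by simp [ge, mk]⟩)
  have := (by decide : ∀ e ∈ core, e.1 ≠ e.2 ∧ e.1 < 12 ∧ e.2 < 12) e he
  simp only [mk, sp, this, if_true]
  grind

theorem Rσ {s σ σ' h} (p : PS gs T A s σ h) (p' : PS gs T A s σ' h) : RR gs T A (mk s σ h) (mk s σ' h) := by
  refine indep ((pr_iff ..).2 p) ((pr_iff ..).2 p') ((gE_iff _).2 ⟨by simp [core, mk, sp], .inl rfl, .inl rfl,
    fun _ _ => ⟨.inr rfl, .inr rfl⟩, fun t _ => by simp [ge, mk]⟩)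

theorem Rh {s σ} (n : ℕ) : ∀ (pr : Gd Y → List (Fin 5 × Fin 4)) h, (∀ t, (pr t).length ≤ n) → PS gs T A s σ h →
    RR gs T A (mk s σ h) (mk s σ fun t => (pr t).foldl (att (env s σ t)) (h t)) ∧
      PS gs T A s σ fun t => (pr t).foldl (att (env s σ t)) (h t) := by
  induction n with
  | zero =>
    intro pr h l p
    obtain rfl : pr = fun _ => [] := funext fun t => by simpa using l t
    exact ⟨.refl, p⟩
  | succ n ih =>
    intro pr h l p
    let h' := fun t => ((pr t).take 1).foldl (att (env s σ t)) (h t)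
    have p' : PS gs T A s σ h' := ⟨p.1, p.2.1, p.2.2.1, p.2.2.2.1, fun t ht => by
      have := p.2.2.2.2 t ht
      simp only [h']
      cases pr t
      exacts [this, this.att _]⟩
    have e : (fun t => (pr t).foldl (att (env s σ t)) (h t)) = fun t => (pr t).tail.foldl (att (env s σ t)) (h' t) :=
      funext fun t => by
        simp only [h']
        cases pr t <;> rfl
    obtain ⟨r, q⟩ := ih (fun t => (pr t).tail) h' (fun t => by have := l t; simp; omega) p'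
    rw [e]
    refine ⟨ReflTransGen.trans (indep ((pr_iff ..).2 p) ((pr_iff ..).2 p') ((gE_iff _).2 ⟨by simp [core, mk, sp],
      .inl rfl, .inl rfl, fun _ _ => ⟨.inr rfl, .inr rfl⟩, fun t _ => ?_⟩)) r, q⟩
    obtain ⟨m, hm⟩ : ∃ m, ∀ q, q ≠ m → h t q = h' t q := by
      simp only [h']
      rcases pr t with _ | ⟨m, _⟩
      · simp
      · exact ⟨m.1, fun q hq => by simp only [List.take, List.foldl, att]; split_ifs <;> simp [hq]⟩
    have := hm 0
    have := hm 1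
    have := hm 2
    have := hm 3
    have := hm 4
    cases q : t.1 <;> simp [ge, mk, sp, vr, q, ixs] <;> grind

def Nm (s : ℕ → Fin 4) : Prop := s 1 = 1 ∧ s 2 = 2 ∧ s 3 = 3

omit [DecidableEq Y] [Inhabited Y] in
theorem PS.c {s σ h} (p : PS gs T A s σ h) (n : Nm s) : s 4 ≠ 1 ∧ s 4 ≠ s 5 ∧ s 4 ≠ s 9 ∧ s 4 ≠ s 6 ∧ s 4 ≠ s 7 ∧
    s 4 ≠ s 11 ∧ s 5 ≠ 1 ∧ s 5 ≠ 3 ∧ s 6 ≠ s 8 ∧ s 6 ≠ 3 ∧ s 7 ≠ s 8 ∧ s 7 ≠ 3 ∧ s 8 ≠ 1 ∧ s 8 ≠ 2 ∧ s 8 ≠ s 11 ∧
    s 9 ≠ s 6 ∧ s 9 ≠ s 5 ∧ s 9 ≠ 2 ∧ s 9 ≠ s 10 ∧ s 10 ≠ 1 ∧ s 10 ≠ 2 ∧ s 7 ≠ σ T ∧ s 11 ≠ σ A ∧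
    ∀ y ∈ vars gs T A, σ y ∈ [0, 1] := by
  have := p.1
  simp only [core, List.forall_mem_cons, n.1, n.2.1, n.2.2] at this
  refine ⟨by tauto, by tauto, by tauto, by tauto, by tauto, by tauto, by tauto, by tauto, by tauto, by tauto, by tauto,
    by tauto, by tauto, by tauto, by tauto, by tauto, by tauto, by tauto, by tauto, by tauto, by tauto, p.2.1, p.2.2.1,
    fun y hy => ?_⟩
  have := p.2.2.2.1 y hy
  rw [n.2.1, n.2.2] at this
  exact (by decide : ∀ x : Fin 4, x ≠ 2 ∧ x ≠ 3 → x ∈ [0, 1]) _ this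

theorem mv {s σ h} (p : PS gs T A s σ h) (n : Nm s) (i c) (h1 : 3 < i ∧ i ≠ 5 ∧ i ≠ 10)
    (h2 : ∀ e ∈ core, update s i c e.1 ≠ update s i c e.2) (h3 : i = 7 → c ≠ σ T) (h4 : i = 11 → c ≠ σ A)
    (h5 : i = 6 → c = s 5) (g : PS gs T A (update s i c) σ h → Nm (update s i c) → RR gs T A (mk (update s i c) σ h) γ) :
    RR gs T A (mk s σ h) γ := by
  have p' : PS gs T A (update s i c) σ h := by
    obtain ⟨-, q1, q2, q3, q4⟩ := p
    refine ⟨h2, by grind, by grind, by grind, fun t ht => ?_⟩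
    have := q4 t ht
    simp only [LP, Fin.forall_fin_succ, env, E] at this ⊢
    simp at this ⊢
    grind
  exact (Rs i c p p').trans (g p' (by grind [Nm]))

theorem pr_γ : Pr (gE gs T A) γ :=
  (pr_iff ..).2 ⟨by decide, show (2 : Fin 4) ≠ 1 by decide, show (2 : Fin 4) ≠ 1 by decide,
    fun _ _ => show (1 : Fin 4) ≠ 2 ∧ (1 : Fin 4) ≠ 3 by decide,
    fun t _ => (by decide : ∀ b, LP (E 1 2 2 3 b 1 1 1) can) t.1⟩

theorem S4 {s σ h} (p : PS gs T A s σ h) (n : Nm s) (g : s 4 = 3) (m : Md (s 5) (s 6) (s 10))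
    (o : ∀ y ∈ vars gs T A, σ y = 1) : RR gs T A (mk s σ h) γ := by
  obtain ⟨r, q⟩ := Rh _ (fun _ => pC) h (fun _ => le_rfl) p
  refine r.trans (hybrid ((pr_iff ..).2 q) pr_γ ((gE_iff _).2 ?_))
  have c := p.c n
  have m1 := m.1
  have := o T (by simp [vars])
  have := o A (by simp [vars])
  refine ⟨?_, by simp [mk, γ, γs, sp, vr]; grind, by simp [mk, γ, γs, sp, vr]; grind,
    fun y hy => by simp [mk, γ, γs, sp, vr, o y hy, n.2.1, n.2.2], fun t ht => ?_⟩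
  · simp [core, mk, γ, γs, sp, n.1, n.2.1, n.2.2, g]
    grind
  · have v := mem_vars (T := T) (A := A) ht
    have l := p.2.2.2.2 t ht
    have e : env s σ t = E 1 (s 5) (s 6) (s 10) t.1 1 1 1 := by rw [env, n.1, o _ v.1, o _ v.2.1, o _ v.2.2]
    rw [e] at l
    have e' : pC.foldl (att (env s σ t)) (h t) = can := e ▸ locC m l
    cases q : t.1 <;> simp [ge, mk, γ, γs, sp, vr, e', can, n.1, o, v, q, ixs] <;> grind

theorem S3 {Ω : Type} [LinearOrder Ω] (rk : Y → Ω) (hr : ∀ t ∈ gs, t.1 = true → rk t.2.1 < rk t.2.2.1 ∧ rk t.2.1 < rk t.2.2.2)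
    {s} (n : Nm s) (g : s 4 = 3) (m : Md (s 5) (s 6) (s 10)) (h7 : s 7 = 2) (h11 : s 11 = 2) (k : ℕ) :
    ∀ σ h, ((vars gs T A).toFinset.filter fun y => σ y ≠ 1).card = k → PS gs T A s σ h → RR gs T A (mk s σ h) γ := by
  induction k with
  | zero => exact fun σ h c p => S4 p n g m (by simpa using c)
  | succ k ih =>
    intro σ h c p
    obtain ⟨y, hy, mn⟩ := Finset.exists_min_image _ rk (Finset.card_pos.1 (c.trans_gt k.succ_pos))
    obtain ⟨r, q⟩ := Rh _ (fun t => if t.1 = true ∧ σ t.2.1 = 1 then pR else []) h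
      (fun t => show _ ≤ pR.length by split_ifs <;> simp) p
    have b := (p.c n).2.2.2.2.2.2.2.2.2.2.2.2.2.2.2.2.2.2.2.2.2.2.2
    refine r.trans ((Rσ (σ' := update σ y 1) q ?_).trans (ih _ _ ?_ ?_))
    on_goal 2 =>
      rw [← Nat.succ_inj, Nat.succ_eq_add_one, Nat.succ_eq_add_one, ← c, ← Finset.card_erase_add_one hy]
      congr 2
      ext z
      by_cases e : z = y <;> simp [e]
    all_goals
      obtain ⟨q1, q2, q3, q4, q5⟩ := q
      refine ⟨q1, by grind, by grind, by grind [Nm], fun t ht => ?_⟩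
      have l := q5 t ht
      beta_reduce at l ⊢
      have v := mem_vars (T := T) (A := A) ht
      have a : t.1 = true → y = t.2.2.1 ∨ y = t.2.2.2 → σ t.2.1 = 1 := fun h1 h2 => by_contra fun h3 => by
        have := mn t.2.1 (by simp [v, h3])
        have := hr t ht h1
        rcases h2 with rfl | rfl <;> order
      by_cases z : t.1 = true ∧ σ t.2.1 = 1
      · have l0 := p.2.2.2.2 t ht
        have e : env s σ t = E 1 (s 5) (s 6) (s 10) true 1 (σ t.2.2.1) (σ t.2.2.2) := by rw [env, n.1, z.1, z.2]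
        rw [e] at l0
        have := locR m (b _ v.2.1) (b _ v.2.2) l0
        rw [← e] at this
        rw [if_pos z] at l ⊢
        generalize pR.foldl _ _ = u at *
        simp only [LP, Fin.forall_fin_succ, env, E, n.1] at l ⊢
        simp at l ⊢
        grind
      · rw [if_neg z] at l ⊢
        simp only [LP, Fin.forall_fin_succ, env, E, n.1] at l ⊢
        simp at l ⊢
        grind

section
variable {Ω : Type} [LinearOrder Ω] (rk : Y → Ω)
  (hr : ∀ t ∈ gs, t.1 = true → rk t.2.1 < rk t.2.2.1 ∧ rk t.2.1 < rk t.2.2.2)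
include hr

theorem S2 {s σ h} (p : PS gs T A s σ h) (n : Nm s) (g : s 4 = 3) : RR gs T A (mk s σ h) γ := by
  have c := p.c n
  have hT := c.2.2.2.2.2.2.2.2.2.2.2.2.2.2.2.2.2.2.2.2.2.2.2 T (by simp [vars])
  have hA := c.2.2.2.2.2.2.2.2.2.2.2.2.2.2.2.2.2.2.2.2.2.2.2 A (by simp [vars])
  obtain ⟨n1, n2, n3⟩ := id n
  refine mv p n 7 2 (by decide) (by simp [core]; grind) (by grind) (by simp) (by simp) fun p n => ?_
  refine mv p n 11 2 (by decide) (by simp [core]; grind) (by simp) (by grind) (by simp) fun p n => ?_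
  by_cases z : s 5 = 2
  · refine mv p n 6 2 (by decide) (by simp [core]; grind) (by simp) (by simp) (by simp [z]) fun p n => ?_
    exact S3 rk hr n (by simpa) (by simp [Md]; grind) (by simp) (by simp) _ _ _ rfl p
  · exact S3 rk hr n (by simpa) (by simp [Md]; grind) (by simp) (by simp) _ _ _ rfl p

theorem S1 {s σ h} (p : PS gs T A s σ h) (n : Nm s) (g : s 4 = 0 ∨ s 4 = 2 ∧ s 8 = 3) : RR gs T A (mk s σ h) γ := by
  have c := p.c n
  have hA := c.2.2.2.2.2.2.2.2.2.2.2.2.2.2.2.2.2.2.2.2.2.2.2 A (by simp [vars])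
  obtain ⟨n1, n2, n3⟩ := id n
  refine mv p n 6 (s 5) (by decide) (by simp [core]; grind) (by simp) (by simp) (by simp) fun p n => ?_
  refine mv p n 9 1 (by decide) (by simp [core]; grind) (by simp) (by simp) (by simp) fun p n => ?_
  obtain g | g := g
  · refine mv p n 11 2 (by decide) (by simp [core]; grind) (by simp) (by grind) (by simp) fun p n => ?_
    exact mv p n 4 3 (by decide) (by simp [core]; grind) (by simp) (by simp) (by simp) fun p n => S2 rk hr p n (by simp)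
  · exact mv p n 4 3 (by decide) (by simp [core]; grind) (by simp) (by simp) (by simp) fun p n => S2 rk hr p n (by simp)

omit hr [DecidableEq Y] [Inhabited Y] in
theorem act {s σ h} {α : Y → Bool} (p : PS gs T A s σ h) (n : Nm s) (g : s 4 = 2 ∧ s 8 = 0)
    (e : ∀ y ∈ vars gs T A, σ y = 0 ↔ α y = true) : (s 5 = 0 ∧ s 6 = 1 ∧ s 7 = 1 ∧ s 9 = 3 ∧ s 10 = 0) ∧
      (∀ y ∈ vars gs T A, σ y = cl (α y)) ∧
      (∀ t ∈ gs, env s σ t = EA t.1 (α t.2.1) (α t.2.2.1) (α t.2.2.2)) ∧ Sol gs T α := by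
  have c := p.c n
  have b := c.2.2.2.2.2.2.2.2.2.2.2.2.2.2.2.2.2.2.2.2.2.2.2
  have h1 : s 5 = 0 ∧ s 6 = 1 ∧ s 7 = 1 ∧ s 9 = 3 ∧ s 10 = 0 := by grind
  have h2 : ∀ y ∈ vars gs T A, σ y = cl (α y) := fun y hy => by
    have := b y hy
    have := e y hy
    grind [cl]
  have h3 : ∀ t ∈ gs, env s σ t = EA t.1 (α t.2.1) (α t.2.2.1) (α t.2.2.2) := fun t ht => by
    have v := mem_vars (T := T) (A := A) ht
    simp [env, EA, n.1, h1, h2, v]
  refine ⟨h1, h2, h3, ?_, fun t ht => (locS ..).1 ⟨h t, h3 t ht ▸ p.2.2.2.2 t ht⟩⟩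
  have := h2 T (by simp [vars])
  grind [cl]

theorem S0 {α β : Y → Bool} (r : ReflTransGen (Fl gs T) α β) (hβ : β A = true) : ∀ s σ h, PS gs T A s σ h → Nm s →
    s 4 = 2 ∧ s 8 = 0 → (∀ y ∈ vars gs T A, σ y = 0 ↔ α y = true) → RR gs T A (mk s σ h) γ := by
  induction r using ReflTransGen.head_induction_on with
  | refl =>
    intro s σ h p n g e
    have c := p.c n
    have a := (act p n g e).1
    have := (e A (by simp [vars])).2 hβ
    obtain ⟨n1, n2, n3⟩ := id n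
    refine mv p n 11 1 (by decide) (by simp [core]; grind) (by simp) (by grind) (by simp) fun p n => ?_
    exact mv p n 8 3 (by decide) (by simp [core]; grind) (by simp) (by simp) (by simp) fun p n =>
      S1 rk hr p n (by simp [g])
  | @head α δ f _ ih =>
    intro s σ h p n g e
    have c := p.c n
    have hA := c.2.2.2.2.2.2.2.2.2.2.2.2.2.2.2.2.2.2.2.2.2.2.2 A (by simp [vars])
    obtain ⟨n1, n2, n3⟩ := id n
    refine mv p n 11 3 (by decide) (by simp [core]; grind) (by simp) (by grind) (by simp) fun p n => ?_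
    have g' : update s 11 3 4 = 2 ∧ update s 11 3 8 = 0 := by simpa using g
    have l : update s 11 3 11 = 3 := by simp
    generalize update s 11 3 = s at p n g' l
    obtain ⟨a1, a2, a3, a4⟩ := act p n g' e
    let pr := fun t : Gd Y => if α t.2.1 = false ∧ δ t.2.1 = false then p1 else
      if α t.2.2.1 = t.1 ∧ δ t.2.2.1 = t.1 then p2 else p3
    obtain ⟨r, q⟩ := Rh 10 pr h (fun t => by simp only [pr]; split_ifs <;> decide) p
    have p' : PS gs T A s (fun y => cl (δ y)) fun t => (pr t).foldl (att (env s σ t)) (h t) := ⟨q.1, by simp [a1, f.1.1, cl], by grind [cl],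
      fun y _ => by grind [cl, Nm], fun t ht => by
        have l := locA _ _ _ _ (δ t.2.1) (δ t.2.2.1) (δ t.2.2.2) (a3 t ht ▸ p.2.2.2.2 t ht)
        rw [← a3 t ht, show EA t.1 (δ t.2.1) (δ t.2.2.1) (δ t.2.2.2) = env s (fun y => cl (δ y)) t by
          simp [env, EA, n.1, a1]] at l
        obtain ⟨y, hy⟩ := f.2
        have := hy t.2.1
        have := hy t.2.2.1
        have := hy t.2.2.2
        have := a4.2 t ht
        have := f.1.2 t ht
        have : t.1 = true → t.2.1 ≠ t.2.2.1 ∧ t.2.1 ≠ t.2.2.2 := fun e =>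
          ⟨fun q => (hr t ht e).1.ne (congrArg rk q), fun q => (hr t ht e).2.ne (congrArg rk q)⟩
        simp only [pr]
        split_ifs with h1 h2
        exacts [l.1 h1.1 h1.2, l.2.1 h2.1 h2.2, l.2.2 (by grind) (by grind) (by grind)]⟩
    exact r.trans ((Rσ q p').trans (ih _ _ _ p' n g' fun y _ => by cases q : δ y <;> simp [cl, q]))

theorem yes (H : ∀ α, Sol gs T α → ∃ β, ReflTransGen (Fl gs T) α β ∧ β A = true) (f : X Y → Fin 4)
    (hf : Pr (gE gs T A) f) (h1 : f (sp 1) = 1) (h2 : f (sp 2) = 2) (h3 : f (sp 3) = 3) : RR gs T A f γ := by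
  have e : ∀ x ∈ gv gs T A, f x = mk (f ∘ sp) (f ∘ vr) (fun t p => f (p + 13, t)) x := by
    simp only [gv, List.forall_mem_append, List.forall_mem_map, List.forall_mem_flatMap]
    exact ⟨⟨fun i hi => by simp [mk, sp, List.mem_range.1 hi], fun _ _ => rfl⟩, fun t _ => by simp [mk, ixs]⟩
  have p := (pr_iff ..).1 (show Pr (gE gs T A) (mk (f ∘ sp) (f ∘ vr) fun t p => f (p + 13, t)) from fun a ha => by
    rw [← e _ (wf a ha).1, ← e _ (wf a ha).2.1]
    exact hf a ha)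
  have n : Nm (f ∘ sp) := ⟨h1, h2, h3⟩
  refine .head ⟨(pr_iff ..).2 p, default, fun u hu _ => e u hu⟩ ?_
  generalize f ∘ sp = s at *
  have c := p.c n
  obtain g | g | g : s 4 = 3 ∨ (s 4 = 0 ∨ s 4 = 2 ∧ s 8 = 3) ∨ s 4 = 2 ∧ s 8 = 0 := by grind
  exacts [S2 rk hr p n g, S1 rk hr p n g,
    let ⟨_, r, b⟩ := H _ (act (α := fun y => decide ((f ∘ vr) y = 0)) p n g (by simp)).2.2.2
    S0 rk hr r b _ _ _ p n g (by simp)]

end

theorem no (k : ℕ) [NeZero k] (hk : 4 ≤ k) (I : (Y → Bool) → Prop) {α₀ : Y → Bool} (h1 : Sol gs T α₀) (h2 : I α₀)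
    (h3 : ∀ α β, I α → Sol gs T α → Fl gs T α β → I β) (h4 : ∀ α, I α → Sol gs T α → α A = false) :
    ¬ ∀ F G : ℕ × X Y → Fin k, Pr (je k (gv gs T A) (gE gs T A)) F → Pr (je k (gv gs T A) (gE gs T A)) G →
      R (jv k (gv gs T A)) (je k (gv gs T A) (gE gs T A)) F G := fun H => by
  classical
  choose h hh using fun t ht => (locS ..).2 (h1.2 t ht)
  have a : ∀ i < 12, sp i ∈ gv gs T A := fun i hi => by simp [gv, sp, hi]
  have p : Pr (gE gs T A) (mk (fun i => [0, 1, 2, 3, 2, 0, 1, 1, 0, 3, 0, 3].getD i 0) (fun y => cl (α₀ y))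
      fun t => if ht : t ∈ gs then h t ht else can) := (pr_iff ..).2 ⟨by decide, by simp [h1.1, cl],
    by simp [h4 _ h2 h1, cl], fun y _ => by cases q : α₀ y <;> simp [cl, q], fun t ht => by
      simp only [dif_pos ht]
      exact hh t ht⟩
  refine join_no hk wf (fun i => sp (if i = 0 then 5 else i)) (fun i => a _ (by split_ifs <;> omega)) pr_γ
    (show (2 : Fin 4) ≠ 0 by decide)
    (fun f => Nm (f ∘ sp) ∧ (f (sp 4) = 2 ∧ f (sp 8) = 0) ∧ f (sp 5) = 0 ∧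
      ∃ α, I α ∧ ∀ y ∈ vars gs T A, f (vr y) = 0 ↔ α y = true) p
    ⟨⟨rfl, rfl, rfl⟩, ⟨rfl, rfl⟩, rfl, α₀, h2, fun y _ => by cases q : α₀ y <;> simp [mk, vr, cl, q]⟩ ?_
    (fun f ⟨⟨q1, q2, q3⟩, _, q, _⟩ i => by fin_cases i; exacts [q, q1, q2, q3]) (H _ _ (pr_L hk p) (pr_L hk pr_γ))
  have ps : ∀ f : X Y → Fin 4, Pr (gE gs T A) f → PS gs T A (f ∘ sp) (f ∘ vr) fun t p => f (p + 13, t) := fun f hf => by
    obtain ⟨q1, q2, q3, q4, q5⟩ := (gE_iff _).1 hf
    refine ⟨q1, q2, q3, q4, fun t ht => ?_⟩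
    have := q5 t ht
    cases q : t.1 <;> simpa [ge, LP, Fin.forall_fin_succ, env, E, q, and_assoc] using this
  rintro f g ⟨n, q1, q2, α, q3, q4⟩ pf ⟨pg, v, e⟩
  obtain ⟨a1, a2, -, a4⟩ := act (ps f pf) n q1 q4
  have c := (ps f pf).c n
  have hA := a2 A (by simp [vars])
  rw [h4 α q3 a4] at hA
  have s : Nm (g ∘ sp) ∧ (g (sp 4) = 2 ∧ g (sp 8) = 0) ∧ g (sp 5) = 0 := by
    have c' := (ps g pg).1
    have e' : ∀ i < 12, i ≠ v.1 → f (sp i) = g (sp i) := fun i hi q => e _ (a i hi) fun z => q (z ▸ rfl)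
    simp only [core, List.forall_mem_cons, comp, Nm, cl, Nat.forall_lt_succ_right] at *
    grind (splits := 20)
  let β : Y → Bool := fun y => if y ∈ vars gs T A then decide (g (vr y) = 0) else α y
  have b : ∀ y ∈ vars gs T A, g (vr y) = 0 ↔ β y = true := fun y hy => by simp [β, hy]
  refine ⟨s.1, s.2.1, s.2.2, β, h3 α β q3 a4 ⟨(act (ps g pg) s.1 s.2.1 b).2.2.2, v.2.2.1, fun z hz => ?_⟩, b⟩
  by_cases hy : z ∈ vars gs T A
  · rw [Bool.eq_iff_iff, ← q4 z hy, ← b z hy, e _ (by simp only [gv, List.mem_append]; grind) fun q => hz (q ▸ rfl)]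
  · simp [β, hy]

theorem mix {Ω : Type} [LinearOrder Ω] (rk : Y → Ω)
    (hr : ∀ t ∈ gs, t.1 = true → rk t.2.1 < rk t.2.2.1 ∧ rk t.2.1 < rk t.2.2.2) (k : ℕ) [NeZero k] (hk : 4 ≤ k)
    (H : ∀ α, Sol gs T α → ∃ β, ReflTransGen (Fl gs T) α β ∧ β A = true) (F G : ℕ × X Y → Fin k) :
    Pr (je k (gv gs T A) (gE gs T A)) F → Pr (je k (gv gs T A) (gE gs T A)) G →
      R (jv k (gv gs T A)) (je k (gv gs T A) (gE gs T A)) F G := by
  refine join_yes hk wf sp (by simp [gE, core]) pr_γ (fun x _ => ?_) (yes rk hr H) F G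
  simp only [γ, mk]
  split_ifs with q
  · exact (by decide : ∀ i < 12, γs i ≠ 0) _ q
  · decide
  · exact (by decide : ∀ i, can i ≠ 0) _

end Pool.Agent.H.MP_8006ab_lc
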