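import Pool.Agent.H.MP_8006ab_lc.C

/-! Long clauses as chains of gadgets. -/

namespace Pool.Agent.H.MP_8006ab_lc

open Function Relation Pool.Agent.Lib.CX

set_option synthInstance.maxSize 4000

abbrev YY (Z : Type) := Z × List Z × ℕ

variable {Z : Type} [DecidableEq Z] [Inhabited Z] (cs : List (Z × List Z)) (nd : List (Z × Z)) (T A : Z)

def bs (z : Z) : YY Z := (z, [], 0)
def av (c : Z × List Z) (j : ℕ) : YY Z := if j = 0 then bs c.1 else (c.1, c.2, j)
def cg : List (Gd (YY Z)) := cs.flatMap (fun c => (false, av c c.2.length, av c c.2.length, bs c.1) ::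
  (List.range c.2.length).map fun j => (true, av c j, bs (c.2.getD j default), av c (j + 1))) ++
    nd.map fun p => (false, bs p.1, bs p.2, bs p.1)

def Sol2 (β : Z → Bool) : Prop :=
  β T = true ∧ (∀ c ∈ cs, β c.1 = true → ∃ x ∈ c.2, β x = true) ∧ ∀ p ∈ nd, β p.1 = false ∨ β p.2 = false
def Fl2 (β β' : Z → Bool) : Prop := Sol2 cs nd T β' ∧ ∃ y, ∀ z, z ≠ y → β z = β' z
def Good (β : Z → Bool) (c : Z × List Z) (j : ℕ) : Prop :=
  j = 0 ∧ β c.1 = false ∨ j < c.2.length ∧ β (c.2.getD j default) = true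
def gr (k : ℕ) : Gr := mkGr (jv k (gv (cg cs nd) (bs T) (bs A))) (je k (gv (cg cs nd) (bs T) (bs A)) (gE (cg cs nd) (bs T) (bs A)))

variable {cs nd T A}

omit [DecidableEq Z] in
theorem sol_iff (α : YY Z → Bool) : Sol (cg cs nd) (bs T) α ↔ α (bs T) = true ∧ (∀ c ∈ cs, α (av c c.2.length) = false ∧
    ∀ j < c.2.length, α (av c j) = false ∨ α (bs (c.2.getD j default)) = true ∨ α (av c (j + 1)) = true) ∧
    ∀ p ∈ nd, α (bs p.1) = false ∨ α (bs p.2) = false := by
  simp only [Sol, cg, List.forall_mem_append, List.forall_mem_flatMap, List.forall_mem_cons, List.forall_mem_map,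
    List.mem_range]
  simp

omit [DecidableEq Z] in
theorem proj {α : YY Z → Bool} (h : Sol (cg cs nd) (bs T) α) : Sol2 cs nd T (α ∘ bs) := by
  obtain ⟨h1, h2, h3⟩ := (sol_iff α).1 h
  refine ⟨h1, fun c hc q => by_contra fun n => ?_, h3⟩
  have : ∀ j ≤ c.2.length, α (av c j) = true := fun j => by
    induction j with
    | zero => exact fun _ => q
    | succ j ih =>
      intro hj
      obtain e | e | e := (h2 c hc).2 j hj
      · simp [ih (by omega)] at e
      · exact absurd ⟨_, by simp [show j < c.2.length from hj], e⟩ n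
      · exact e
  simpa [(h2 c hc).1] using this _ le_rfl

omit [DecidableEq Z] in
theorem sol_of {α : YY Z → Bool} {θ : Z × List Z → ℕ} (h : Sol2 cs nd T (α ∘ bs)) (g : ∀ c ∈ cs, Good (α ∘ bs) c (θ c))
    (a : ∀ c ∈ cs, ∀ j < c.2.length, α (c.1, c.2, j + 1) = decide (j < θ c)) : Sol (cg cs nd) (bs T) α := by
  refine (sol_iff α).2 ⟨h.1, fun c hc => ?_, h.2.2⟩
  have := g c hc
  have e : ∀ j ≤ c.2.length, α (av c j) = if j = 0 then α (bs c.1) else decide (j ≤ θ c) := fun j hj => by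
    rcases j with _ | j
    · rfl
    · exact a c hc j hj
  refine ⟨by grind [Good], fun j hj => ?_⟩
  have := e j hj.le
  have := e (j + 1) hj
  grind [Good]

theorem fix {θ : Z × List Z → ℕ} (k : ℕ) : ∀ α : YY Z → Bool,
    ((cs.flatMap fun c => (List.range c.2.length).map fun j => (c, j)).toFinset.filter
      fun y => α (y.1.1, y.1.2, y.2 + 1) ≠ decide (y.2 < θ y.1)).card = k → Sol (cg cs nd) (bs T) α →
    (∀ c ∈ cs, Good (α ∘ bs) c (θ c)) → ∃ α', ReflTransGen (Fl (cg cs nd) (bs T)) α α' ∧ α' ∘ bs = α ∘ bs ∧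
      ∀ c ∈ cs, ∀ j < c.2.length, α' (c.1, c.2, j + 1) = decide (j < θ c) := by
  induction k with
  | zero => exact fun α c _ _ => ⟨α, .refl, rfl, fun c' h1 j h2 => by
      simpa using Finset.filter_eq_empty_iff.1 (Finset.card_eq_zero.1 c) (x := (c', j)) (by simp [h1, h2])⟩
  | succ k ih =>
    intro α cd s g
    obtain ⟨c, hc, j, hj, n, s'⟩ : ∃ c ∈ cs, ∃ j < c.2.length, α (c.1, c.2, j + 1) ≠ decide (j < θ c) ∧
        Sol (cg cs nd) (bs T) (update α (c.1, c.2, j + 1) (decide (j < θ c))) := by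
      obtain ⟨⟨c, j⟩, hy⟩ := Finset.card_pos.1 (cd.trans_gt k.succ_pos)
      obtain ⟨⟨hc, hj⟩, n⟩ : (c ∈ cs ∧ j < c.2.length) ∧ α (c.1, c.2, j + 1) ≠ decide (j < θ c) := by simpa using hy
      obtain ⟨h1, h2, h3⟩ := (sol_iff α).1 s
      have g := g c hc
      obtain ⟨j, hj, n, q⟩ : ∃ j < c.2.length, α (c.1, c.2, j + 1) ≠ decide (j < θ c) ∧
          if j < θ c then α (bs (c.2.getD (j + 1) default)) = true ∨ α (av c (j + 2)) = true
          else α (av c j) = false ∨ α (bs (c.2.getD j default)) = true := by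
        by_cases e : ∃ j, j < c.2.length ∧ θ c ≤ j ∧ α (c.1, c.2, j + 1) = true
        · have := Nat.find_spec e
          have m := fun j => Nat.find_min e (m := j)
          generalize Nat.find e = j at *
          refine ⟨j, this.1, by grind, ?_⟩
          have := m (j - 1)
          grind [Good, av]
        · have e' : ∃ i, i < θ c ∧ α (c.1, c.2, θ c - i) = false := ⟨θ c - (j + 1), by grind⟩
          have := Nat.find_spec e'
          have m := fun j => Nat.find_min e' (m := j)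
          generalize Nat.find e' = i at *
          refine ⟨θ c - i - 1, by grind [Good], by grind, ?_⟩
          have := m (i - 1)
          grind [Good, av]
      have b : ∀ z, update α (c.1, c.2, j + 1) (decide (j < θ c)) (bs z) = α (bs z) := fun z =>
        update_of_ne (by simp [bs]) ..
      have u : ∀ c' i, update α (c.1, c.2, j + 1) (decide (j < θ c)) (av c' i) =
          if c' = c ∧ i = j + 1 then decide (j < θ c) else α (av c' i) := fun c' i => by
        grind [av, bs]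
      refine ⟨c, hc, j, hj, n, (sol_iff _).2 ⟨by rwa [b], fun c' hc' => ?_, by simpa only [b]⟩⟩
      simp only [b, u]
      refine ⟨by grind [Good], fun i hi => ?_⟩
      have := (h2 c' hc').2 i hi
      grind
    have b : update α (c.1, c.2, j + 1) (decide (j < θ c)) ∘ bs = α ∘ bs := funext fun z => update_of_ne (by simp [bs]) ..
    obtain ⟨α', r, e⟩ := ih _ (by
      rw [← Nat.succ_inj, Nat.succ_eq_add_one, Nat.succ_eq_add_one, ← cd, eq_comm,
        ← Finset.card_erase_add_one (a := (c, j)) (Finset.mem_filter.2 ⟨by simp [hc, hj], n⟩)]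
      congr 2
      ext y
      by_cases e : y = (c, j)
      · simp [e]
      · simp only [Finset.mem_filter, Finset.mem_erase]
        rw [update_of_ne (by grind)]
        simp [e]) s' (b ▸ g)
    exact ⟨α', r.head ⟨s', _, fun z hz => (update_of_ne hz ..).symm⟩, b ▸ e⟩

omit [DecidableEq Z] in
theorem good_of {β : Z → Bool} {c : Z × List Z} {x : Z} (hx : x ∈ c.2) :
    ∃ j, ∀ β : Z → Bool, β x = true → Good β c j := by
  obtain ⟨j, hj, rfl⟩ := List.getElem_of_mem hx
  exact ⟨j, fun β e => .inr ⟨hj, by simpa [hj]⟩⟩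

theorem lift (hr : ∀ c ∈ cs, c.1 ∉ c.2) {β β' : Z → Bool} (r : ReflTransGen (Fl2 cs nd T) β β') :
    ∀ α, Sol (cg cs nd) (bs T) α → α ∘ bs = β → ∃ α', ReflTransGen (Fl (cg cs nd) (bs T)) α α' ∧ α' ∘ bs = β' := by
  induction r using ReflTransGen.head_induction_on with
  | refl => exact fun α _ e => ⟨α, .refl, e⟩
  | @head β δ f _ ih =>
    rintro α s rfl
    obtain ⟨f, y, hy⟩ := f
    have : ∀ c, ∃ j, c ∈ cs → Good (α ∘ bs) c j ∧ Good δ c j := fun c => by
      by_cases hc : c ∈ cs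
      swap
      · simp [hc]
      by_cases e : (α ∘ bs) c.1 = false ∧ δ c.1 = false
      · exact ⟨0, fun _ => ⟨.inl ⟨rfl, e.1⟩, .inl ⟨rfl, e.2⟩⟩⟩
      obtain ⟨x, hx, q⟩ : ∃ x ∈ c.2, (α ∘ bs) x = true ∧ δ x = true := by
        have a1 := (proj s).2.1 c hc
        have a2 := f.2.1 c hc
        generalize α ∘ bs = ε at *
        by_contra! n
        have k1 : ∀ x ∈ c.2, ε x = true → x = y := fun x hx q => by_contra fun r => n x hx q (hy x r ▸ q)
        have k2 : ∀ x ∈ c.2, δ x = true → x = y := fun x hx q => by_contra fun r => n x hx ((hy x r).trans q) q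
        have k3 : y ∈ c.2 := by grind
        have k4 := hy c.1 fun q => hr c hc (q ▸ k3)
        obtain ⟨x, q1, q2⟩ := a1 (by simpa [← k4] using e)
        obtain ⟨x', q3, q4⟩ := a2 (by simpa [k4] using e)
        exact n x q1 q2 (by rwa [k1 x q1 q2, ← k2 x' q3 q4])
      obtain ⟨j, hj⟩ := good_of (β := δ) hx
      exact ⟨j, fun _ => ⟨hj _ q.1, hj _ q.2⟩⟩
    choose θ hθ using this
    obtain ⟨α1, r1, e1, a1⟩ := fix (θ := θ) _ α rfl s fun c hc => (hθ c hc).1
    have e2 : update α1 (bs y) (δ y) ∘ bs = δ := funext fun z => by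
      by_cases q : z = y
      · simp [q]
      · rw [comp_apply, update_of_ne (by simpa [bs]), ← hy z q, ← e1]
        rfl
    have s2 : Sol (cg cs nd) (bs T) (update α1 (bs y) (δ y)) := sol_of (θ := θ) (e2.symm ▸ f)
      (fun c hc => e2.symm ▸ (hθ c hc).2) fun c hc j hj => by rw [update_of_ne (by simp [bs]), a1 c hc j hj]
    obtain ⟨α', r, e⟩ := ih _ s2 e2
    exact ⟨α', r1.trans (r.head ⟨s2, _, fun z hz => (update_of_ne hz ..).symm⟩), e⟩

theorem mix2 (r : Z → ℕ) (hr : ∀ c ∈ cs, ∀ x ∈ c.2, r c.1 < r x) (k : ℕ) (hk : 4 ≤ k)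
    (H : ∀ β, Sol2 cs nd T β → ∃ β', ReflTransGen (Fl2 cs nd T) β β' ∧ β' A = true) : Mixing k (gr cs nd T A k).G := by
  haveI : NeZero k := ⟨by omega⟩
  refine (mixing_iff k (wf_j k wf)).2 (mix (fun y : YY Z => toLex (r y.1, y.2.2)) ?_ k hk fun α s => ?_)
  · simp only [cg, List.forall_mem_append, List.forall_mem_flatMap, List.forall_mem_cons, List.forall_mem_map,
      List.mem_range, Prod.Lex.toLex_lt_toLex]
    refine ⟨fun c hc => ⟨by simp, fun j hj _ => ?_⟩, by simp⟩
    have := hr c hc (c.2.getD j default) (by simp [hj])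
    grind [av, bs]
  · obtain ⟨β, h1, h2⟩ := H _ (proj s)
    obtain ⟨α', h3, rfl⟩ := lift (fun c hc q => (hr c hc _ q).false) h1 α s rfl
    exact ⟨α', h3, h2⟩

theorem no2 (k : ℕ) (hk : 4 ≤ k) (I : (Z → Bool) → Prop) {β : Z → Bool} (h1 : Sol2 cs nd T β) (h2 : I β)
    (h3 : ∀ α β, I α → Sol2 cs nd T α → Fl2 cs nd T α β → I β) (h4 : ∀ α, I α → Sol2 cs nd T α → α A = false) :
    ¬ Mixing k (gr cs nd T A k).G := by
  haveI : NeZero k := ⟨by omega⟩
  have : ∀ c, ∃ j, c ∈ cs → Good β c j := fun c => by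
    by_cases e : c ∈ cs ∧ β c.1 = true
    · obtain ⟨x, hx, q⟩ := h1.2.1 c e.1 e.2
      obtain ⟨j, hj⟩ := good_of (β := β) hx
      exact ⟨j, fun _ => hj _ q⟩
    · exact ⟨0, fun hc => .inl ⟨rfl, by simpa [hc] using e⟩⟩
  choose θ hθ using this
  rw [gr, mixing_iff k (wf_j k wf)]
  exact no k hk (fun α => I (α ∘ bs)) (α₀ := fun y => if y.2.2 = 0 then β y.1 else decide (y.2.2 - 1 < θ (y.1, y.2.1)))
    (sol_of (θ := θ) h1 hθ (by simp)) h2
    (fun α α' i s ⟨f, y, hy⟩ => h3 _ _ i (proj s) ⟨proj f, y.1, fun z hz => hy _ fun e => hz (e ▸ rfl)⟩)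
    fun α i s => h4 _ i (proj s)

end Pool.Agent.H.MP_8006ab_lc
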