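import Pool.Agent.H.MP_8006ab_lc.D
import Pool.Agent.Lib.helper15.QBF

/-! A token machine that evaluates a quantified formula in a loop; colour mixing is PSPACE-complete. -/

namespace Pool.Agent.H.MP_8006ab_lc

open Function Relation Pool.Agent.Lib.CX

set_option synthInstance.maxSize 4000

abbrev Q := List Bool × List (List (ℕ × Bool))
abbrev Zm := ℕ × ℕ × Bool

def qq (a : Q) (i : ℕ) : Bool := a.1.getD i false

def nodes (a : Q) : List Zm := List.range 3 ×ˢ List.range a.1.length ×ˢ [false, true] ++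
  [3] ×ˢ List.range (a.1.length + 1) ×ˢ [false, true] ++ [(0, a.1.length, false)] ++
    (List.range a.2.length).map fun c => (4, c, false)

def ar (a : Q) (c d : Zm) : Prop := c.1 = 0 ∧ c.2.1 < a.1.length ∧ d = (1, c.2) ∨ c.1 = 1 ∧ d = (0, c.2.1 + 1, false) ∨
  c = (0, a.1.length, false) ∧ (d = (3, a.1.length, true) ∨ d.1 = 4) ∨ c.1 = 4 ∧ d = (3, a.1.length, false) ∨
  c.1 = 3 ∧ c.2.1 = d.2.1 + 1 ∧ (c.2.2 = qq a d.2.1 ∧ d.1 = 2 ∨ c.2.2 ≠ qq a d.2.1 ∧ d.1 = 3 ∧ d.2.2 = c.2.2) ∨
  c.1 = 2 ∧ c.2.2 = false ∧ d = (0, c.2.1, true) ∨ c.1 = 2 ∧ c.2.2 = true ∧ d = (3, c.2.1, qq a c.2.1) ∨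
  c = (3, 0, false) ∧ d = (0, 0, false)
instance (a c d) : Decidable (ar a c d) := by unfold ar; infer_instance

def cls (a : Q) : List (Zm × List Zm) := ((6, 0, false), nodes a) ::
  (List.range a.1.length).map (fun i => ((6, 0, false), [(5, i, false), (5, i, true), (0, i, false), (0, i, true)])) ++
  ([1, 2] ×ˢ List.range a.1.length ×ˢ [false, true]).map (fun c => (c, [(5, c.2)])) ++
  a.2.map (fun C => ((3, a.1.length, true), C.map fun l => (5, l))) ++
  (List.range a.2.length).flatMap fun c => (a.2.getD c []).map fun l => ((4, c, false), [(5, l.1, !l.2)])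

def nds (a : Q) : List (Zm × Zm) := (List.range a.1.length).map (fun i => ((5, i, false), (5, i, true))) ++
  (nodes a ×ˢ nodes a).filter fun p => decide (p.1 ≠ p.2 ∧ ¬ ar a p.1 p.2 ∧ ¬ ar a p.2 p.1)

section
variable {α : Type} [Enc α] {a : α → Q} {c d : α → Zm}
@[fun_prop] theorem pt_nodes (ha : PT a) : PT fun x => nodes (a x) := by unfold nodes; fun_prop
theorem pt_ar : PT fun p : Q × Zm × Zm => decide (p.2.1 ≠ p.2.2 ∧ ¬ ar p.1 p.2.1 p.2.2 ∧ ¬ ar p.1 p.2.2 p.2.1) := by
  unfold ar qq; fun_prop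
attribute [local irreducible] nodes
theorem pt_cls : PT cls := by unfold cls; fun_prop
theorem pt_nds : PT nds := PT.append (by fun_prop) (PT.filter pt_ar (by fun_prop))
theorem pt_cg : PT fun a => cg (cls a) (nds a) := by
  have := pt_cls
  have := pt_nds
  simp only [cg, av, bs]
  fun_prop
theorem pt_j {X : Type} [Enc X] [Inhabited X] [DecidableEq X] (k : ℕ) :
    PT fun p : List X × List (X × X) => mkGr (jv k p.1) (je k p.1 p.2) := by unfold jv je; fun_prop
theorem pt_g {Y : Type} [Enc Y] [Inhabited Y] (T A : Y) : PT fun g : List (Gd Y) => (gv g T A, gE g T A) := by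
  have h0 : PT (ge (Y := Y)) := by unfold ge sp vr; fun_prop
  have h1 : PT fun g : List (Gd Y) => vars g T A := by unfold vars; fun_prop
  unfold gv gE vr
  exact (PT.append (PT.append (PT.const _) (PT.map (by fun_prop) h1)) (by fun_prop)).pair
    (PT.append (PT.append (PT.const _) (PT.flatMap (by fun_prop) h1)) (PT.flatMap (h0.comp PT.snd') PT.id))
attribute [local irreducible] mkGr jv je gv gE cg
theorem pt_gr (k : ℕ) : PT fun a => gr (cls a) (nds a) (6, 0, false) (3, 0, true) k := by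
  unfold gr
  exact (pt_j k).comp ((pt_g (bs (6, 0, false)) (bs (3, 0, true))).comp pt_cg)
end

variable {a : Q}

theorem mem_nodes (t i : ℕ) (b : Bool) : (t, i, b) ∈ nodes a ↔ t < 3 ∧ i < a.1.length ∨ t = 3 ∧ i ≤ a.1.length ∨
    t = 0 ∧ i = a.1.length ∧ b = false ∨ t = 4 ∧ i < a.2.length ∧ b = false := by
  cases b <;> simp [nodes, Nat.lt_succ_iff, or_assoc] <;> grind

abbrev SS (a : Q) := Sol2 (cls a) (nds a) (6, 0, false)
abbrev FF (a : Q) := Fl2 (cls a) (nds a) (6, 0, false)

def As (a : Q) (β : Zm → Bool) (c : Zm) : Prop := (c.1 = 1 ∨ c.1 = 2 → β (5, c.2) = true) ∧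
  (c = (3, a.1.length, true) → ∀ C ∈ a.2, ∃ l ∈ C, β (5, l) = true) ∧
  (c.1 = 4 → ∀ l ∈ a.2.getD c.2.1 [], β (5, l.1, !l.2) = true)

theorem ss_iff (β : Zm → Bool) : SS a β ↔ β (6, 0, false) = true ∧ (∃ c ∈ nodes a, β c = true) ∧
    (∀ i < a.1.length, β (5, i, false) = true ∨ β (5, i, true) = true ∨ β (0, i, false) = true ∨ β (0, i, true) = true) ∧
    (∀ c ∈ nodes a, β c = true → As a β c) ∧ (∀ i < a.1.length, β (5, i, false) = false ∨ β (5, i, true) = false) ∧
    ∀ c ∈ nodes a, ∀ d ∈ nodes a, β c = true → β d = true → c = d ∨ ar a c d ∨ ar a d c := by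
  refine and_congr_right fun h => ?_
  simp only [cls, nds, List.forall_mem_append, List.forall_mem_cons, List.forall_mem_map, List.forall_mem_flatMap, h,
    and_assoc, List.mem_range, true_imp_iff, List.cons_append]
  refine and_congr_right' (and_congr (by simp) ?_)
  constructor
  · rintro ⟨h1, h2, h3, h4, h5⟩
    refine ⟨fun ⟨t, i, b⟩ q1 q2 => ⟨fun q => ?_, fun q C hC => by
      simpa only [List.mem_map, exists_exists_and_eq_and] using h2 C hC (q ▸ q2), fun q l hl => ?_⟩, h4,
      fun c q1 d q2 => ?_⟩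
    · rw [mem_nodes] at q1
      simpa using h1 (t, i, b) (by cases b <;> simp <;> grind) q2
    · rw [mem_nodes] at q1
      simpa using h3 i (by grind) l hl (by grind)
    · have := h5 (c, d)
      simp only [List.mem_filter, List.mem_product, decide_eq_true_eq] at this
      grind
  · rintro ⟨h1, h4, h5⟩
    refine ⟨fun ⟨t, i, b⟩ q1 q2 => ?_, fun C hC q => ?_, fun c hc l q1 q2 => ?_, h4, fun ⟨c, d⟩ q => ?_⟩
    · have : (t = 1 ∨ t = 2) ∧ i < a.1.length := by cases b <;> simp at q1 <;> omega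
      simpa using (h1 _ ((mem_nodes ..).2 (by omega)) q2).1 this.1
    · simpa only [List.mem_map, exists_exists_and_eq_and] using (h1 _ (by simp [mem_nodes]) q).2.1 rfl C hC
    · simpa using (h1 _ (by simp [mem_nodes, hc]) q2).2.2 rfl _ q1
    · simp only [List.mem_filter, List.mem_product, decide_eq_true_eq] at q
      have := h5 c q.1.1 d q.1.2
      grind

open Classical in
noncomputable def Ev' (a : Q) (i : ℕ) (σ : ℕ → Bool) : Bool := decide (QN (CSat a.2) (a.1.zipIdx.drop i) σ)

theorem ev_step {i : ℕ} (hi : i < a.1.length) (σ) : Ev' a i σ = if Ev' a (i + 1) (update σ i false) = qq a i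
    then Ev' a (i + 1) (update σ i true) else Ev' a (i + 1) (update σ i false) := by
  have g : qq a i = a.1[i] := by simp [qq, hi]
  have e : ∀ i σ, Ev' a i σ = true ↔ QN (CSat a.2) (a.1.zipIdx.drop i) σ := by simp [Ev']
  rw [Bool.eq_iff_iff, e, List.drop_eq_getElem_cons (by simpa using hi)]
  simp only [QN, List.getElem_zipIdx, zero_add, ← e, g]
  cases a.1[i] <;> simp <;> grind

attribute [local irreducible] qq

theorem ev_last (σ) : Ev' a a.1.length σ = true ↔ CSat a.2 σ := by
  rw [Ev', List.drop_of_length_le (by simp)]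
  simp [QN]

noncomputable def Uo (a : Q) : ℕ → Bool → (ℕ → Bool) → Bool
  | 0, v, _ => v
  | i + 1, v, σ => Uo a i (if v = qq a i ∧ σ i = false then Ev' a (i + 1) (update σ i true) else v) σ

noncomputable def out (a : Q) (c : Zm) (σ : ℕ → Bool) : Bool :=
  if c.1 = 0 ∧ c.2.2 = false then Uo a c.2.1 (Ev' a c.2.1 σ) σ
  else if c.1 = 0 ∨ c.1 = 2 ∧ c.2.2 = false then Uo a c.2.1 (Ev' a (c.2.1 + 1) (update σ c.2.1 true)) σ
  else if c.1 = 1 then Uo a (c.2.1 + 1) (Ev' a (c.2.1 + 1) σ) σ
  else if c.1 = 2 then Uo a c.2.1 (qq a c.2.1) σ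
  else if c.1 = 3 then Uo a c.2.1 c.2.2 σ else Uo a a.1.length false σ

variable (hw : ∀ C ∈ a.2, ∀ l ∈ C, l.1 < a.1.length)
include hw

theorem ev_congr (d : ℕ) : ∀ i σ σ', i + d = a.1.length → (∀ j < i, σ j = σ' j) → Ev' a i σ = Ev' a i σ' := by
  induction d with
  | zero =>
    rintro _ σ σ' rfl h
    rw [Bool.eq_iff_iff, ev_last, ev_last]
    exact forall₂_congr fun C hC => exists_congr fun l => and_congr_right fun hl => by rw [h _ (hw C hC l hl)]
  | succ d ih =>
    intro i σ σ' e h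
    have := fun b => ih (i + 1) (update σ i b) (update σ' i b) (by omega) (by grind)
    rw [ev_step (i := i) (by omega) σ, ev_step (i := i) (by omega) σ', this, this]

theorem uo_congr (i : ℕ) : ∀ v σ σ', i ≤ a.1.length → (∀ j < i, σ j = σ' j) → Uo a i v σ = Uo a i v σ' := by
  induction i with
  | zero => exact fun _ _ _ _ _ => rfl
  | succ i ih =>
    intro v σ σ' e h
    rw [Uo, Uo, ih _ σ σ' (by omega) (by grind), h i (by omega),
      ev_congr hw (a.1.length - (i + 1)) _ (update σ i true) (update σ' i true) (by omega) (by grind)]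

theorem ev_zero (σ) : Ev' a 0 σ = true ↔ QBF a := by
  rw [ev_congr hw _ 0 σ (fun _ => false) (zero_add _) (by simp)]
  simp [Ev', QBF]

theorem arc_out (hq : ¬ QBF a) {β : Zm → Bool} (s : SS a β) {c d : Zm} (hc : c ∈ nodes a) (hd : d ∈ nodes a)
    (h1 : β c = true) (h2 : β d = true) (r : ar a c d) :
    out a c (fun i => β (5, i, true)) = out a d fun i => β (5, i, true) := by
  obtain ⟨-, -, -, s1, s2, -⟩ := (ss_iff β).1 s
  have a1 := s1 c hc h1
  have a2 := s1 d hd h2
  have m : ∀ i < a.1.length, ∀ b, β (5, i, b) = true → β (5, i, true) = b := fun i hi b => by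
    have := s2 i hi
    cases b <;> grind
  obtain ⟨t, i, b⟩ := c
  obtain ⟨t', i', b'⟩ := d
  rw [mem_nodes] at hc hd
  generalize e : (fun i => β (5, i, true)) = σ
  have e : ∀ i, β (5, i, true) = σ i := congrFun e
  simp only [e] at m
  obtain ⟨rfl, q, r⟩ | ⟨rfl, r⟩ | ⟨q, r | rfl⟩ | ⟨rfl, r⟩ | ⟨rfl, rfl, ⟨q, rfl⟩ | ⟨q, rfl, r⟩⟩ | ⟨rfl, rfl, r⟩ |
    ⟨rfl, rfl, r⟩ | ⟨q, r⟩ := r <;> (try cases r) <;> (try cases q)
  · have := m i q b (a2.1 (.inl rfl))
    have u : update σ i b = σ := by rw [← this, update_eq_self]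
    cases b
    · simp [out, Uo, ev_step q, this, u]
    · simp [out, Uo, this, u]
  · simp [out]
  · have := (ev_last σ).2 fun C hC => let ⟨l, q1, q2⟩ := a2.2.1 rfl C hC; ⟨l, q1, m _ (hw C hC l q1) _ q2⟩
    simp [out, this]
  · have hi : i' < a.2.length := by omega
    have : Ev' a a.1.length σ = false := Bool.eq_false_iff.2 fun q => by
      obtain ⟨l, q1, q2⟩ := (ev_last σ).1 q _ (List.getElem_mem hi)
      have := m _ (hw _ (List.getElem_mem hi) l q1) _ (a2.2.2 rfl l (by simpa [hi]))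
      simp [q2] at this
    simp [out, this]
  · simp [out]
  · have := m i' (by omega) b' (a2.1 (.inr rfl))
    cases b' <;> simp [out, Uo, this]
  · simp only [ne_eq] at q
    simp [out, Uo, q]
  · simp [out]
  · simp [out]
  · simpa [out, Uo, ← Bool.not_eq_true, ev_zero hw]

theorem same_out (hq : ¬ QBF a) {β : Zm → Bool} (s : SS a β) {c d : Zm} (hc : c ∈ nodes a) (hd : d ∈ nodes a)
    (h1 : β c = true) (h2 : β d = true) : out a c (fun i => β (5, i, true)) = out a d fun i => β (5, i, true) := by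
  obtain rfl | r | r := ((ss_iff β).1 s).2.2.2.2.2 c hc d hd h1 h2
  exacts [rfl, arc_out hw hq s hc hd h1 h2 r, (arc_out hw hq s hd hc h2 h1 r).symm]

theorem not_mix (hq : ¬ QBF a) (k : ℕ) (hk : 4 ≤ k) : ¬ Mixing k (gr (cls a) (nds a) (6, 0, false) (3, 0, true) k).G := by
  have z : (0, 0, false) ∈ nodes a := by simp [mem_nodes]; omega
  refine no2 k hk (fun β => ∃ c ∈ nodes a, β c = true ∧ out a c (fun i => β (5, i, true)) = false)
    (β := fun z => decide (z.1 = 6 ∨ z = (0, 0, false) ∨ z.1 = 5 ∧ z.2.2 = false)) ((ss_iff _).2 ⟨by simp, ⟨_, z, by simp⟩,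
      by simp, fun ⟨t, i, b⟩ q => ?_, by simp, fun ⟨t, i, b⟩ q ⟨t', i', b'⟩ q' => ?_⟩)
    ⟨_, z, by simp, by simpa [out, Uo, ← Bool.not_eq_true, ev_zero hw]⟩ ?_ fun β ⟨c, hc, h1, h2⟩ s => ?_
  · rw [mem_nodes] at q
    grind [As]
  · rw [mem_nodes] at q q'
    grind
  · rintro β δ ⟨c, hc, h1, h2⟩ s ⟨s', y, hy⟩
    by_cases e : ∃ i < a.1.length, β (5, i, true) ≠ δ (5, i, true)
    · obtain ⟨i, hi, e⟩ := e
      obtain rfl : (5, i, true) = y := by_contra fun n => e (hy _ n)
      obtain ⟨b, hb⟩ : ∃ b, β (0, i, b) = true := by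
        have := ((ss_iff _).1 s).2.2.1 i hi
        have := ((ss_iff _).1 s).2.2.2.2.1 i hi
        have := ((ss_iff _).1 s').2.2.1 i hi
        have := ((ss_iff _).1 s').2.2.2.2.1 i hi
        have := hy (5, i, false)
        have := hy (0, i, false)
        have := hy (0, i, true)
        grind
      have m : (0, i, b) ∈ nodes a := by simp [mem_nodes, hi]
      refine ⟨_, m, (hy _ (by simp)).symm.trans hb, ?_⟩
      rw [← h2, same_out hw hq s hc m h1 hb]
      have g : ∀ j < i, δ (5, j, true) = β (5, j, true) := fun j hj => (hy _ (by grind)).symm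
      cases b
      · simp only [out, and_self, if_true]
        rw [uo_congr hw i _ _ _ hi.le g, ev_congr hw (a.1.length - i) i _ _ (by omega) g]
      · simp only [out, true_or, if_true, and_false, if_false, Bool.true_eq_false]
        rw [uo_congr hw i _ _ _ hi.le g, ev_congr hw (a.1.length - (i + 1)) (i + 1) _
          (update (fun i => β (5, i, true)) i true) (by omega) (by grind)]
    · obtain ⟨d, hd, q1, q2⟩ : ∃ d ∈ nodes a, β d = true ∧ δ d = true := by
        obtain ⟨d, q1, q2⟩ := ((ss_iff _).1 s').2.1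
        by_cases q : c = y
        · by_cases q' : d = y
          exacts [⟨c, hc, h1, by rw [q, ← q', q2]⟩, ⟨d, q1, (hy d q').trans q2, q2⟩]
        · exact ⟨c, hc, h1, (hy c q).symm.trans h1⟩
      refine ⟨d, hd, q2, ?_⟩
      rw [← h2, same_out hw hq s hc hd h1 q1]
      push Not at e
      obtain ⟨t, i, b⟩ := d
      rw [mem_nodes] at hd
      have u := fun i v h => uo_congr hw i v (fun i => δ (5, i, true)) (fun i => β (5, i, true)) h
        fun j hj => (e j (by omega)).symm
      have v := fun i (h : i ≤ a.1.length) => ev_congr hw (a.1.length - i) i (fun i => δ (5, i, true))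
        (fun i => β (5, i, true)) (by omega) fun j hj => (e j (by omega)).symm
      have w := fun i (h : i < a.1.length) => ev_congr hw (a.1.length - (i + 1)) (i + 1)
        (update (fun i => δ (5, i, true)) i true) (update (fun i => β (5, i, true)) i true) (by omega) (by grind)
      simp only [out]
      grind
  · by_contra n
    simpa [out, Uo] using h2.symm.trans
      (same_out hw hq s hc (d := (3, 0, true)) (by simp [mem_nodes]) h1 (by simpa using n))

def Rch (a : Q) (β : Zm → Bool) : Prop := ∃ β', ReflTransGen (FF a) β β' ∧ β' (3, 0, true) = true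
def Go (a : Q) (c : Zm) (σ : ℕ → Bool) : Prop := ∀ β, SS a β → (∀ d ∈ nodes a, β d = true ↔ d = c) →
  (∀ i < a.1.length, ∀ b, β (5, i, b) = true ↔ σ i = b) → Rch a β

omit hw in
theorem flip {β : Zm → Bool} (z v) (s : SS a (update β z v)) (r : Rch a (update β z v)) : Rch a β :=
  let ⟨δ, h1, h2⟩ := r
  ⟨δ, h1.head ⟨s, z, fun _ h => (update_of_ne h ..).symm⟩, h2⟩

omit hw in
theorem multi {β : Zm → Bool} (v : Bool) (l : List Zm) (s : ∀ m ⊆ l, SS a fun z => if z ∈ m then v else β z) :
    ReflTransGen (FF a) β fun z => if z ∈ l then v else β z := by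
  induction l with
  | nil => exact .refl
  | cons x l ih =>
    exact (ih fun m h => s m (List.subset_cons_of_subset _ h)).tail ⟨s _ (List.Subset.refl _), x, by grind⟩

theorem arc {c d : Zm} {σ} (hc : c ∈ nodes a) (hd : d ∈ nodes a) (r : ar a c d) (n : c ≠ d)
    (l : (d.1 = 1 ∨ d.1 = 2 → σ d.2.1 = d.2.2) ∧ (d = (3, a.1.length, true) → CSat a.2 σ) ∧
      (d.1 = 4 → ∀ l ∈ a.2.getD d.2.1 [], σ l.1 = !l.2)) (g : Go a d σ) : Go a c σ := by
  intro β s h1 h2
  obtain ⟨s1, s2, s3, s4, s5, s6⟩ := (ss_iff β).1 s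
  have m : ∀ c ∈ nodes a, c.1 < 5 := fun ⟨t, i, b⟩ h => by rw [mem_nodes] at h; omega
  have ad : As a β d := by
    obtain ⟨t, i, b⟩ := d
    rw [mem_nodes] at hd
    refine ⟨fun q => (h2 i (by grind) b).2 (l.1 q), fun q C hC => ?_, fun q x hx => ?_⟩
    · obtain ⟨x, q1, q2⟩ := l.2.1 q C hC
      exact ⟨x, q1, (h2 _ (hw C hC x q1) _).2 q2⟩
    · have hi : i < a.2.length := by grind
      exact (h2 _ (hw _ (List.getElem_mem hi) x (by simpa [hi] using hx)) _).2 (l.2.2 q x hx)
  have as : ∀ δ : Zm → Bool, (∀ z : Zm, z.1 = 5 → δ z = β z) → ∀ c, As a β c → As a δ c := fun δ e c q => by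
    simpa only [As, fun t => e (5, t) rfl] using q
  have := m c hc
  have := m d hd
  have w : ∀ i < a.1.length, β (5, i, false) = true ∨ β (5, i, true) = true := fun i hi => by
    simp [h2 i hi]
  have key : ∀ δ : Zm → Bool, (∀ z : Zm, 5 ≤ z.1 → δ z = β z) → δ d = true → (∀ x ∈ nodes a, δ x = true → x = c ∨ x = d) →
      SS a δ := fun δ e1 e2 e3 => by
    refine (ss_iff _).2 ⟨by rwa [e1 _ (by simp)], ⟨d, hd, e2⟩, fun i hi => ?_, fun x hx q => as _ (fun z hz => e1 z hz.ge) _ ?_,
      by simpa [e1], fun x hx y hy q1 q2 => ?_⟩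
    · have := w i hi
      simp only [e1 (5, _) le_rfl]
      tauto
    · obtain rfl | rfl := e3 x hx q
      exacts [s4 _ hc ((h1 _ hc).2 rfl), ad]
    · obtain rfl | rfl := e3 x hx q1 <;> obtain rfl | rfl := e3 y hy q2 <;> simp [r]
  clear s2 s3 s4 s5 s6 as ad w l
  have t2 := key (update (update β d true) c false) (by grind) (by grind) (by grind)
  exact flip _ _ (key _ (by grind) (by simp) (by grind)) (flip _ _ t2 (g _ t2 (by grind) (by grind)))

omit hw in
theorem upd3 (β : ℕ × ℕ × Bool → Bool) (i j : ℕ) (c b : Bool)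
    (h : β (5, j, false) = true ∨ β (5, j, true) = true ∨ β (0, j, false) = true ∨ β (0, j, true) = true) :
    update (update β (5, i, c) false) (5, i, b) true (5, j, false) = true ∨
    update (update β (5, i, c) false) (5, i, b) true (5, j, true) = true ∨
    update (update β (5, i, c) false) (5, i, b) true (0, j, false) = true ∨
    update (update β (5, i, c) false) (5, i, b) true (0, j, true) = true := by
  by_cases e : j = i
  · subst e
    cases b <;> simp
  · simpa [update_apply, e] using h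

omit hw in
theorem wr {i : ℕ} {b : Bool} {σ} (hi : i < a.1.length) (g : Go a (0, i, b) (update σ i b)) : Go a (0, i, b) σ := by
  intro β s h1 h2
  obtain ⟨s1, s2, s3, s4, s5, s6⟩ := (ss_iff β).1 s
  have m : ∀ c ∈ nodes a, c.1 < 5 := fun ⟨t, i, b⟩ h => by rw [mem_nodes] at h; omega
  have hc : (0, i, b) ∈ nodes a := by simp [mem_nodes, hi]
  have := (h1 _ hc).2 rfl
  have t1 : SS a (update β (5, i, σ i) false) := (ss_iff _).2 ⟨by grind, ⟨_, hc, by grind⟩, by cases b <;> grind,
    fun x hx q => by grind [As], by grind, by grind⟩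
  have t2 : SS a (update (update β (5, i, σ i) false) (5, i, b) true) := (ss_iff _).2 ⟨by grind, ⟨_, hc, by grind⟩,
    fun j hj => upd3 β i j _ b (s3 j hj), fun x hx q => by grind [As], by grind, by grind⟩
  exact flip _ _ t1 (flip _ _ t2 (g _ t2 (by grind) (by grind)))

theorem wr' {i : ℕ} {b : Bool} {σ} (hi : i < a.1.length) (g : Go a (0, i + 1, false) (update σ i b)) : Go a (0, i, b) σ :=
  wr hi (arc hw (d := (1, i, b)) (by simp [mem_nodes, hi]) (by simp [mem_nodes, hi]) (by simp [ar, hi]) (by simp) (by simp)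
    (arc hw (by simp [mem_nodes, hi]) (by simp [mem_nodes]; omega) (by simp [ar]) (by simp) (by simp) g))

theorem up {i : ℕ} {v : Bool} {σ} (hi : i < a.1.length) (g : v ≠ qq a i ∨ σ i = true → Go a (3, i, v) σ)
    (g' : v = qq a i → σ i = false → Go a (0, i + 1, false) (update σ i true)) : Go a (3, i + 1, v) σ := by
  by_cases e : v = qq a i
  · refine arc hw (d := (2, i, σ i)) (by simp [mem_nodes]; omega) (by simp [mem_nodes, hi]) (by simp [ar, e]) (by simp)
      (by simp) ?_
    cases q : σ i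
    · exact arc hw (by simp [mem_nodes, hi]) (by simp [mem_nodes, hi]) (by simp [ar]) (by simp) (by simp) (wr' hw hi (g' e q))
    · exact arc hw (by simp [mem_nodes, hi]) (by simp [mem_nodes, hi.le]) (by simp [ar, e]) (by simp) (by simp [hi.ne])
        (g (.inr q))
  · exact arc hw (by simp [mem_nodes]; omega) (by simp [mem_nodes, hi.le]) (by simp [ar, e]) (by simp) (by simp [hi.ne])
      (g (.inl e))
end Pool.Agent.H.MP_8006ab_lc
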