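import Pool.Agent.H.MP_8006ab_lc.E

/-! The token machine reaches its goal from every state when the formula is true. -/

namespace Pool.Agent.H.MP_8006ab_lc

open Function Relation Pool.Agent.Lib.CX

variable {a : Q} (hw : ∀ C ∈ a.2, ∀ l ∈ C, l.1 < a.1.length)
include hw

theorem down (d : ℕ) : ∀ i σ, i + d = a.1.length → (∀ σ', (∀ j < i, σ' j = σ j) → Go a (3, i, Ev' a i σ) σ') →
    Go a (0, i, false) σ := by
  induction d with
  | zero =>
    rintro _ σ rfl g
    have g := g σ fun _ _ => rfl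
    by_cases q : CSat a.2 σ
    · rw [(ev_last σ).2 q] at g
      exact arc hw (by simp [mem_nodes]) (by simp [mem_nodes]) (by simp [ar]) (by simp) (by simp [q]) g
    · rw [Bool.eq_false_iff.2 (mt (ev_last σ).1 q)] at g
      simp only [CSat, not_forall] at q
      obtain ⟨C, hC, q⟩ := q
      obtain ⟨c, hc, rfl⟩ := List.getElem_of_mem hC
      exact arc hw (d := (4, c, false)) (by simp [mem_nodes]) (by simp [mem_nodes, hc]) (by simp [ar]) (by simp)
        ⟨by simp, by simp, fun _ l hl => by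
          exact Bool.eq_not.2 fun e => q ⟨l, by simpa [hc] using hl, e⟩⟩ (arc hw (by simp [mem_nodes, hc]) (by simp [mem_nodes]) (by simp [ar]) (by simp) (by simp) g)
  | succ d ih =>
    intro i σ e g
    have hi : i < a.1.length := by omega
    rw [ev_step hi] at g
    refine wr' hw hi (ih _ _ (by omega) fun σ1 h1 => up hw hi (fun q => ?_) fun q _ => ih _ _ (by omega) fun σ2 h2 =>
      up hw hi (fun _ => ?_) (by grind))
    · rw [if_neg (by grind)] at g
      exact g _ (by grind)
    · rw [if_pos q, ev_congr hw d (i + 1) _ (update σ1 i true) (by omega) (by grind)] at g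
      exact g _ (by grind)

theorem go_all (hq : QBF a) : ∀ c ∈ nodes a, ∀ σ, Go a c σ := by
  have z : ∀ σ, Go a (3, 0, true) σ := fun σ β _ h _ => ⟨β, .refl, (h _ (by simp [mem_nodes])).2 rfl⟩
  have u : ∀ i ≤ a.1.length, ∀ v σ, Go a (3, i, v) σ := fun i => by
    induction i with
    | zero =>
      intro _ v σ
      cases v
      · exact arc hw (by simp [mem_nodes]) (by simp [mem_nodes]; omega) (by simp [ar]) (by simp) (by simp)
          (down hw _ 0 σ (zero_add _) fun σ' _ => (ev_zero hw σ).2 hq ▸ z σ')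
      · exact z σ
    | succ i ih =>
      exact fun hi v σ => up hw hi (fun _ => ih (by omega) _ _) fun _ _ => down hw (a.1.length - (i + 1)) _ _ (by omega)
        fun σ' h => up hw hi (fun _ => ih (by omega) _ _) (by grind)
  have d : ∀ i ≤ a.1.length, ∀ σ, Go a (0, i, false) σ := fun i hi σ =>
    down hw (a.1.length - i) _ _ (by omega) fun _ _ => u i hi _ _
  rintro ⟨t, i, b⟩ hc σ
  obtain ⟨q, hi⟩ | ⟨rfl, hi⟩ | ⟨rfl, rfl, rfl⟩ | ⟨rfl, hi, rfl⟩ := (mem_nodes ..).1 hc
  · interval_cases t
    · exact wr' hw hi (d _ hi _)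
    · exact arc hw hc (by simp [mem_nodes]; omega) (by simp [ar]) (by simp) (by simp) (d _ hi _)
    · cases b
      · exact arc hw (d := (0, i, true)) hc (by simp [mem_nodes, hi]) (by simp [ar]) (by simp) (by simp)
          (wr' hw hi (d _ hi _))
      · exact arc hw hc (by simp [mem_nodes, hi.le]) (by simp [ar]) (by simp) (by simp [hi.ne]) (u i hi.le (qq a i) _)
  · exact u i hi _ _
  · exact d _ le_rfl _
  · exact arc hw hc (by simp [mem_nodes]) (by simp [ar]) (by simp) (by simp) (u _ le_rfl false _)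

omit hw in
theorem as_mono {β δ : Zm → Bool} (h : ∀ z, β (5, z) = true → δ (5, z) = true) {c : Zm} (q : As a β c) : As a δ c :=
  ⟨fun e => h _ (q.1 e), fun e C hC => let ⟨l, q1, q2⟩ := q.2.1 e C hC; ⟨l, q1, h _ q2⟩, fun e l hl => h _ (q.2.2 e l hl)⟩

omit hw in
theorem fill {β : Zm → Bool} (s : SS a β) : ∃ δ, ReflTransGen (FF a) β δ ∧ SS a δ ∧
    ∀ i < a.1.length, ∀ b, δ (5, i, b) = true ↔ β (5, i, true) = b := by
  have m : ∀ c ∈ nodes a, c.1 < 5 := fun ⟨t, i, b⟩ h => by rw [mem_nodes] at h; omega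
  obtain ⟨s1, ⟨c, hc, s2⟩, s3, s4, s5, s6⟩ := (ss_iff β).1 s
  obtain ⟨l, hl⟩ : ∃ l : List Zm, ∀ z, z ∈ l ↔ ∃ i < a.1.length, β (5, i, true) = false ∧ z = (5, i, false) :=
    ⟨((List.range a.1.length).filter fun i => β (5, i, true) = false).map fun i => (5, i, false), fun z => by
      simp only [List.mem_map, List.mem_filter, List.mem_range, decide_eq_true_eq, and_assoc, eq_comm (b := z)]⟩
  have t1 : ∀ x ⊆ l, SS a fun z => if z ∈ x then true else β z := fun x hx => by
    have h : ∀ z ∈ x, ∃ i < a.1.length, β (5, i, true) = false ∧ z = (5, i, false) := fun z hz => (hl z).1 (hx hz)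
    have h' : ∀ d ∈ nodes a, d ∉ x := fun d hd q => by
      obtain ⟨i, -, -, rfl⟩ := h d q
      exact (m _ hd).false
    refine (ss_iff _).2 ⟨by simp [s1], ⟨c, hc, by simp [s2]⟩, fun i hi => ?_, fun d hd q => ?_, fun i hi => ?_,
      fun c hc d hd q1 q2 => s6 c hc d hd (by simpa [h' c hc] using q1) (by simpa [h' d hd] using q2)⟩
    · have := s3 i hi
      clear s3 s4 s5 s6 h h' hl m
      grind
    · exact as_mono (by simp +contextual) (s4 d hd (by simpa [h' d hd] using q))
    · have := s5 i hi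
      have := h (5, i, false)
      have := h (5, i, true)
      clear s3 s4 s5 s6 h h' hl m
      grind
  refine ⟨_, multi true l t1, t1 l (List.Subset.refl _), fun i hi b => ?_⟩
  have := hl (5, i, b)
  have := s5 i hi
  clear s3 s4 s5 s6 hl m t1
  cases b <;> grind

theorem is_mix (hq : QBF a) (k : ℕ) (hk : 4 ≤ k) : Mixing k (gr (cls a) (nds a) (6, 0, false) (3, 0, true) k).G := by
  have m : ∀ c ∈ nodes a, c.1 < 5 := fun ⟨t, i, b⟩ h => by rw [mem_nodes] at h; omega
  refine mix2 (fun z => if z.1 = 6 then 0 else if z.1 = 5 then 2 else 1) ?_ k hk fun β s => ?_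
  · simp only [cls, List.forall_mem_append, List.forall_mem_cons, List.forall_mem_map, List.forall_mem_flatMap,
      List.cons_append]
    refine ⟨fun x hx => ?_, ⟨⟨by simp, fun ⟨t, i⟩ h => ?_⟩, by simp⟩, by simp⟩
    · have := m x hx
      grind
    · have : t = 1 ∨ t = 2 := by simpa using (List.mem_product.1 h).1
      grind
  obtain ⟨δ, r1, s', e⟩ := fill s
  obtain ⟨s1, ⟨c, hc, hc'⟩, s3, s4, s5, s6⟩ := (ss_iff δ).1 s'
  have t2 : ∀ x ⊆ (nodes a).filter (· ≠ c), SS a fun z => if z ∈ x then false else δ z := fun x hx => by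
    have h : ∀ z ∈ x, z.1 < 5 ∧ z ≠ c := fun z hz => by
      have := List.mem_filter.1 (hx hz)
      exact ⟨m _ this.1, by simpa using this.2⟩
    have h5 : ∀ z, (5, z) ∉ x := fun z q => (h _ q).1.false
    refine (ss_iff _).2 ⟨by simpa [s1] using fun q => absurd (h (6, 0, false) q).1 (by simp), ⟨c, hc, by simpa [hc'] using fun q => (h _ q).2 rfl⟩,
      fun i hi => ?_, fun d hd q => as_mono (by simp [h5]) (s4 d hd (by grind)), by simpa [h5] using s5,
      fun c hc d hd q1 q2 => s6 c hc d hd (by grind) (by grind)⟩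
    have := e i hi
    simp only [h5, if_false]
    cases q : β (5, i, true) <;> simp [this, q]
  obtain ⟨ε, r, q⟩ := go_all hw hq c hc (fun i => β (5, i, true)) _ (t2 _ (List.Subset.refl _))
    (fun d hd => by by_cases q : d = c <;> simp [q, hd, hc']) fun i hi b => by
      rw [if_neg fun q => (m _ (List.mem_filter.1 q).1).false]
      exact e i hi b
  exact ⟨ε, r1.trans ((multi false _ t2).trans r), q⟩

omit hw in
theorem complete (k : ℕ) (hk : 4 ≤ k) : PSPACEComplete fun a : Gr => Mixing k a.G := by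
  have : NeZero k := ⟨by omega⟩
  exact ⟨psp k, PSPACEHard.of_qbf true _ (pt_gr k) fun a hw =>
    ⟨fun q => by simpa using is_mix hw q k hk, fun h => by_contra fun q => not_mix hw q k hk (h.2 rfl)⟩⟩

end Pool.Agent.H.MP_8006ab_lc
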